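import Pool.Agent.X234.MC.Coding
import Pool.Agent.Helper446.Comp

/-!
Counting programs; outputs in r.e. families of small sets have short programs.
-/

set_option autoImplicit false

namespace Pool.Agent.X234.TD

open Pool.Agent.Helper227 Finset Encodable
open Pool.Agent.X234.MC

theorem geom_half (S : Finset ℕ) : ∑ t ∈ S, (1 / 2 : ℝ) ^ (t + 1) ≤ 1 := by
  have h1 : ∀ n, ∑ k ∈ Finset.range n, (1 / 2 : ℝ) ^ (k + 1) = 1 - (1 / 2 : ℝ) ^ n := by
    intro n
    induction n with
    | zero => simp
    | succ n ih => rw [Finset.sum_range_succ, ih, pow_succ]; ring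
  have h2 : S ⊆ Finset.range (S.sup id + 1) := by
    intro k hk
    rw [Finset.mem_range]
    exact Nat.lt_succ_of_le (Finset.le_sup (f := id) hk)
  refine (Finset.sum_le_sum_of_subset_of_nonneg h2 fun _ _ _ => by positivity).trans ?_
  rw [h1]
  have : (0 : ℝ) ≤ (1 / 2 : ℝ) ^ (S.sup id + 1) := by positivity
  linarith

/-- outputs in an r.e. family of small sets have short programs -/
theorem kc_levels {U : List Bool →. List Bool} (hU : IsUniversal U) (A : ℕ → List Bool → Prop)
    (hA : REPred fun x : ℕ × List Bool => A x.1 x.2) (C d : ℕ)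
    (hcard : ∀ t, ∀ T : Finset (List Bool), (∀ w ∈ T, A t w) → T.card ≤ C * 2 ^ (d * t)) :
    ∃ c, ∀ t w, A t w → KU U w ≤ (d + 1) * t + c := by
  classical
  obtain ⟨c, hc⟩ := kc_re hU (fun x => ∃ t, x.2 = (d + 1) * t + (C + 1) ∧ A t x.1) (by
      refine Pool.Agent.Helper446.RE.exN (p := fun (x : List Bool × ℕ) t =>
        x.2 = (d + 1) * t + (C + 1) ∧ A t x.1) ?_
      refine Pool.Agent.Helper446.RE.and ?_ ?_
      · exact Pool.Agent.Helper446.RE.eq (by fun_prop) (by fun_prop)
      · exact Pool.Agent.Helper446.RE.comp (f := fun x : (List Bool × ℕ) × ℕ => (x.2, x.1.1)) hA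
          (by fun_prop)) (by
      intro T hT
      choose! f hf hfA using hT
      rw [← Finset.sum_fiberwise_of_maps_to (s := T) (t := T.image f)
        (fun x hx => Finset.mem_image_of_mem _ hx)]
      have h1 : ∀ t ∈ T.image f, ∑ x ∈ T.filter (fun x => f x = t), (1 / 2 : ℝ) ^ x.2 ≤
          (1 / 2 : ℝ) ^ (t + 1) := by
        intro t _
        have h2 : ∀ x ∈ T.filter (fun x => f x = t), (1 / 2 : ℝ) ^ x.2 =
            (1 / 2 : ℝ) ^ ((d + 1) * t + (C + 1)) := by
          intro x hx
          rw [Finset.mem_filter] at hx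
          rw [hf x hx.1, hx.2]
        rw [Finset.sum_congr rfl h2, Finset.sum_const, nsmul_eq_mul]
        have h3 : (T.filter (fun x => f x = t)).card =
            ((T.filter (fun x => f x = t)).image Prod.fst).card := by
          rw [Finset.card_image_of_injOn]
          intro x hx y hy hxy
          rw [Finset.mem_coe, Finset.mem_filter] at hx hy
          refine Prod.ext hxy ?_
          rw [hf x hx.1, hf y hy.1, hx.2, hy.2]
        have h4 := hcard t ((T.filter (fun x => f x = t)).image Prod.fst) (by
          intro w hw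
          obtain ⟨x, hx, rfl⟩ := Finset.mem_image.1 hw
          rw [Finset.mem_filter] at hx
          rw [← hx.2]
          exact hfA x hx.1)
        rw [← h3] at h4
        have h5 : ((T.filter (fun x => f x = t)).card : ℝ) ≤ C * 2 ^ (d * t) := by
          exact_mod_cast h4
        have h6 : (C : ℝ) ≤ 2 ^ C := by exact_mod_cast (Nat.lt_two_pow_self (n := C)).le
        calc _ ≤ (C * 2 ^ (d * t) : ℝ) * (1 / 2 : ℝ) ^ ((d + 1) * t + (C + 1)) :=
              mul_le_mul_of_nonneg_right h5 (by positivity)
          _ ≤ (2 ^ C * 2 ^ (d * t) : ℝ) * (1 / 2 : ℝ) ^ ((d + 1) * t + (C + 1)) := by gcongr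
          _ = (1 / 2 : ℝ) ^ (t + 1) := by
              have h7 : (d + 1) * t + (C + 1) = (C + d * t) + (t + 1) := by ring
              rw [h7, pow_add (1 / 2 : ℝ) (C + d * t), ← pow_add, ← mul_assoc, ← mul_pow]
              norm_num
      refine (Finset.sum_le_sum h1).trans ?_
      exact geom_half _)
  refine ⟨C + 1 + c, fun t w h => ?_⟩
  have := hc (w, (d + 1) * t + (C + 1)) ⟨t, rfl, h⟩
  simp only at this
  omega

/-- there are few outputs of short programs -/
theorem card_KU {U : List Bool →. List Bool} (hU : IsUniversal U) (n : ℕ)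
    (T : Finset (List Bool)) (hT : ∀ w ∈ T, KU U w < n) : T.card ≤ 2 ^ n := by
  classical
  have hex : ∀ y, ∃ τ : List Bool, τ.length = KU U y ∧ y ∈ U τ := fun y => hU.exists_min y
  choose p hp hp2 using hex
  have h1 : ∀ m : ℕ, ∃ L : Finset (List Bool), (∀ τ : List Bool, τ.length < m → τ ∈ L) ∧
      L.card + 1 ≤ 2 ^ m := by
    intro m
    induction m with
    | zero => exact ⟨∅, by simp, by simp⟩
    | succ m ih =>
      obtain ⟨L, hL, hc⟩ := ih
      refine ⟨L ∪ (Finset.univ : Finset (List.Vector Bool m)).image (fun v => v.toList), ?_, ?_⟩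
      · intro τ hτ
        rw [Finset.mem_union]
        rcases Nat.lt_succ_iff_lt_or_eq.1 hτ with h | h
        · exact Or.inl (hL τ h)
        · right
          rw [Finset.mem_image]
          exact ⟨⟨τ, h⟩, Finset.mem_univ _, rfl⟩
      · have h2 := Finset.card_union_le L
          ((Finset.univ : Finset (List.Vector Bool m)).image (fun v => v.toList))
        have h3 : ((Finset.univ : Finset (List.Vector Bool m)).image (fun v => v.toList)).card ≤
            2 ^ m := by
          refine Finset.card_image_le.trans ?_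
          rw [Finset.card_univ, card_vector, Fintype.card_bool]
        rw [pow_succ]
        omega
  obtain ⟨L, hL, hc⟩ := h1 n
  have h2 : T.card ≤ L.card := by
    refine Finset.card_le_card_of_injOn p (fun w hw => hL _ ?_) ?_
    · rw [hp]; exact hT w hw
    · intro x _ y _ hxy
      have h3 := hp2 x
      rw [hxy] at h3
      exact Part.mem_unique h3 (hp2 y)
  omega

end Pool.Agent.X234.TD
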