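import Pool.Agent.X234.TD.Trig

/-!
Computable approximations of sine and cosine; the theorem on trigonometric polynomials.
-/

set_option autoImplicit false

namespace Pool.Agent.X234.TD

open Finset

/-- multiplication of `(a - b) + (c - d) i` by `B + J i` -/
def st (B J : ℕ) (x : ℕ × ℕ × ℕ × ℕ) : ℕ × ℕ × ℕ × ℕ :=
  (x.1 * B + x.2.2.2 * J, x.2.1 * B + x.2.2.1 * J, x.1 * J + x.2.2.1 * B,
    x.2.1 * J + x.2.2.2 * B)

/-- powers of `B + J i` -/
def pw (B J : ℕ) : ℕ → ℕ × ℕ × ℕ × ℕ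
  | 0 => (1, 0, 0, 0)
  | n + 1 => st B J (pw B J n)

theorem pw_eq (B J n : ℕ) : (((pw B J n).1 : ℂ) - (pw B J n).2.1) +
    (((pw B J n).2.2.1 : ℂ) - (pw B J n).2.2.2) * Complex.I = ((B : ℂ) + J * Complex.I) ^ n := by
  induction n with
  | zero => simp [pw]
  | succ n ih =>
    rw [pow_succ, ← ih]
    simp only [pw, st]
    push_cast
    have hI := Complex.I_sq
    linear_combination (-(J : ℂ) * ((pw B J n).2.2.1 - (pw B J n).2.2.2)) * hI

theorem pow_diff (a b : ℂ) (M : ℝ) (ha : ‖a‖ ≤ M) (hb : ‖b‖ ≤ M) (n : ℕ) :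
    ‖a ^ (n + 1) - b ^ (n + 1)‖ ≤ (n + 1) * M ^ n * ‖a - b‖ := by
  have hM : 0 ≤ M := (norm_nonneg _).trans ha
  induction n with
  | zero => simp
  | succ n ih =>
    have h1 : a ^ (n + 1 + 1) - b ^ (n + 1 + 1) = a * (a ^ (n + 1) - b ^ (n + 1)) +
        (a - b) * b ^ (n + 1) := by ring
    rw [h1]
    refine (norm_add_le _ _).trans ?_
    rw [norm_mul, norm_mul, norm_pow]
    have h2 : ‖a‖ * ‖a ^ (n + 1) - b ^ (n + 1)‖ ≤ M * ((n + 1) * M ^ n * ‖a - b‖) :=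
      mul_le_mul ha ih (norm_nonneg _) hM
    have h3 : ‖a - b‖ * ‖b‖ ^ (n + 1) ≤ ‖a - b‖ * M ^ (n + 1) :=
      mul_le_mul_of_nonneg_left (pow_le_pow_left₀ (norm_nonneg _) hb _) (norm_nonneg _)
    push_cast
    calc _ ≤ M * ((n + 1) * M ^ n * ‖a - b‖) + ‖a - b‖ * M ^ (n + 1) := add_le_add h2 h3
      _ = _ := by ring

/-- `(1 + z / N) ^ N` is close to `exp z` -/
theorem exp_approx (z : ℂ) (N : ℕ) (hN : 0 < N) :
    ‖(1 + z / N) ^ N - Complex.exp z‖ ≤ ‖z‖ ^ 2 * Real.exp ‖z‖ / N := by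
  obtain ⟨n, rfl⟩ : ∃ n, N = n + 1 := ⟨N - 1, by omega⟩
  set N := n + 1 with hNdef
  have hN0 : (0 : ℝ) < N := by exact_mod_cast hN
  have hNC : (N : ℂ) ≠ 0 := by exact_mod_cast hN.ne'
  have h1 : Complex.exp z = Complex.exp (z / N) ^ N := by
    rw [← Complex.exp_nat_mul]
    congr 1
    field_simp
  have hnorm : ‖z / N‖ = ‖z‖ / N := by rw [norm_div, Complex.norm_natCast]
  have h2 : ‖Complex.exp (z / N)‖ ≤ Real.exp (‖z‖ / N) := by
    rw [← hnorm]; exact Complex.norm_exp_le_exp_norm _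
  have h3 : ‖1 + z / N‖ ≤ Real.exp (‖z‖ / N) := by
    refine (norm_add_le _ _).trans ?_
    rw [norm_one, hnorm]
    linarith [Real.add_one_le_exp (‖z‖ / N)]
  have h4 := pow_diff (1 + z / N) (Complex.exp (z / N)) _ h3 h2 n
  rw [← hNdef, ← h1] at h4
  have h5 : ‖(1 + z / N) - Complex.exp (z / N)‖ ≤ (‖z‖ / N) ^ 2 * Real.exp (‖z‖ / N) := by
    have h6 := Complex.norm_exp_sub_sum_le_norm_mul_exp (z / N) 2
    rw [hnorm] at h6
    rw [norm_sub_rev]
    simpa [Finset.sum_range_succ] using h6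
  refine h4.trans ?_
  calc (n + 1 : ℝ) * Real.exp (‖z‖ / N) ^ n * ‖(1 + z / N) - Complex.exp (z / N)‖ ≤
        (n + 1 : ℝ) * Real.exp (‖z‖ / N) ^ n * ((‖z‖ / N) ^ 2 * Real.exp (‖z‖ / N)) :=
        mul_le_mul_of_nonneg_left h5 (by positivity)
    _ = N * (‖z‖ / N) ^ 2 * Real.exp (‖z‖ / N) ^ (n + 1) := by rw [hNdef]; push_cast; ring
    _ = N * (‖z‖ / N) ^ 2 * Real.exp ‖z‖ := by
        rw [← Real.exp_nat_mul, ← hNdef]
        congr 2
        field_simp
    _ = _ := by field_simp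

/-- rounding -/
def rnd (S Dn a b : ℕ) : ℕ := (S * (Dn + a) - S * b) / Dn

theorem rnd_approx {S Dn a b : ℕ} (hS : 0 < S) (hD : 0 < Dn) {θ ε : ℝ} (hθ : -1 ≤ θ)
    (h : |((a : ℝ) - b) / Dn - θ| ≤ ε) : |(rnd S Dn a b : ℝ) / S - (1 + θ)| ≤ ε + 1 / S := by
  have hS0 : (0 : ℝ) < S := by exact_mod_cast hS
  have hD0 : (0 : ℝ) < Dn := by exact_mod_cast hD
  have h1 := abs_le.1 h
  have h2 : (0 : ℝ) < 1 / S := by positivity
  unfold rnd
  rcases le_total (S * b) (S * (Dn + a)) with h3 | h3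
  · set q := (S * (Dn + a) - S * b) / Dn with hq
    have h4 : ((S * (Dn + a) - S * b : ℕ) : ℝ) = S * (Dn + a) - S * b := by
      rw [Nat.cast_sub h3]; push_cast; ring
    have h5 : (q : ℝ) * Dn ≤ S * (Dn + a) - S * b := by
      rw [← h4]; exact_mod_cast Nat.div_mul_le_self _ _
    have h6 : (S : ℝ) * (Dn + a) - S * b < (q + 1) * Dn := by
      rw [← h4]; exact_mod_cast (Nat.div_lt_iff_lt_mul hD).1 (Nat.lt_succ_self q)
    have h7 : (q : ℝ) / S ≤ 1 + ((a : ℝ) - b) / Dn := by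
      rw [div_le_iff₀ hS0, ← mul_le_mul_iff_of_pos_right hD0]
      refine h5.trans (le_of_eq ?_)
      field_simp
      ring
    have h8 : 1 + ((a : ℝ) - b) / Dn < (q : ℝ) / S + 1 / S := by
      rw [← add_div, lt_div_iff₀ hS0, ← mul_lt_mul_iff_of_pos_right hD0]
      refine lt_of_eq_of_lt ?_ h6
      field_simp
      ring
    rw [abs_le]
    constructor <;> linarith
  · rw [Nat.sub_eq_zero_of_le h3, Nat.zero_div, Nat.cast_zero, zero_div, zero_sub, abs_neg,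
      abs_of_nonneg (by linarith)]
    have h4 : (Dn : ℝ) + a ≤ b := by
      have : Dn + a ≤ b := Nat.le_of_mul_le_mul_left h3 hS
      exact_mod_cast this
    have h5 : ((a : ℝ) - b) / Dn ≤ -1 := by
      rw [div_le_iff₀ hD0]; linarith
    linarith

/-- the approximations -/
def AA (m i : ℕ) (x : ℕ × ℕ) : ℕ :=
  if i % 2 = 0 then
    rnd (2 ^ (3 * x.1)) ((2 ^ (3 * x.1) * 2 ^ x.1) ^ (2 ^ (3 * x.1)))
      (pw (2 ^ (3 * x.1) * 2 ^ x.1) (min (i / 2) m * x.2) (2 ^ (3 * x.1))).1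
      (pw (2 ^ (3 * x.1) * 2 ^ x.1) (min (i / 2) m * x.2) (2 ^ (3 * x.1))).2.1
  else
    rnd (2 ^ (3 * x.1)) ((2 ^ (3 * x.1) * 2 ^ x.1) ^ (2 ^ (3 * x.1)))
      (pw (2 ^ (3 * x.1) * 2 ^ x.1) (min (i / 2) m * x.2) (2 ^ (3 * x.1))).2.2.1
      (pw (2 ^ (3 * x.1) * 2 ^ x.1) (min (i / 2) m * x.2) (2 ^ (3 * x.1))).2.2.2

theorem AA_approx (m i n j : ℕ) (hj : j < 2 ^ n) :
    |(AA m i (n, j) : ℝ) / 2 ^ (3 * n) - phi m i (j / 2 ^ n)| ≤
      ((⌈(m : ℝ) ^ 2 * Real.exp m⌉₊ + 1 : ℕ) : ℝ) / 2 ^ (3 * n) := by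
  set N := 2 ^ (3 * n) with hN
  have hN0 : 0 < N := by positivity
  have hNR : (0 : ℝ) < N := by exact_mod_cast hN0
  set k := min (i / 2) m with hk
  set B := N * 2 ^ n with hB
  have hB0 : 0 < B := by positivity
  have hBC : (B : ℂ) ≠ 0 := by exact_mod_cast hB0.ne'
  set p := pw B (k * j) N with hp
  have h2n : (0 : ℝ) < 2 ^ n := by positivity
  set x : ℝ := (j : ℝ) / 2 ^ n with hx
  have hx0 : 0 ≤ x := by positivity
  have hx1 : x ≤ 1 := by
    rw [hx, div_le_one h2n]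
    exact_mod_cast hj.le
  set z : ℂ := ((k * x : ℝ) : ℂ) * Complex.I with hz
  have hznorm : ‖z‖ = k * x := by
    rw [hz, norm_mul, Complex.norm_I, mul_one, Complex.norm_real, Real.norm_eq_abs,
      abs_of_nonneg (by positivity)]
  have hkm : (k : ℝ) ≤ m := by exact_mod_cast min_le_right _ _
  have hzm : ‖z‖ ≤ m := by
    rw [hznorm]
    calc (k : ℝ) * x ≤ m * 1 := mul_le_mul hkm hx1 hx0 (Nat.cast_nonneg _)
      _ = m := mul_one _
  have h1 := exp_approx z N hN0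
  have h2 : (1 + z / N) ^ N = (((p.1 : ℂ) - p.2.1) + ((p.2.2.1 : ℂ) - p.2.2.2) * Complex.I) /
      (B : ℂ) ^ N := by
    rw [hp, pw_eq, ← div_pow]
    congr 1
    rw [add_div, div_self hBC, hz, hx, hB]
    have hNC : (N : ℂ) ≠ 0 := by exact_mod_cast hN0.ne'
    push_cast
    field_simp
  have h3 : ‖z‖ ^ 2 * Real.exp ‖z‖ / N ≤ (⌈(m : ℝ) ^ 2 * Real.exp m⌉₊ : ℝ) / N := by
    refine div_le_div_of_nonneg_right (le_trans ?_ (Nat.le_ceil _)) hNR.le
    exact mul_le_mul (pow_le_pow_left₀ (norm_nonneg _) hzm 2) (Real.exp_le_exp.2 hzm)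
      (Real.exp_pos _).le (by positivity)
  have h4 := h1.trans h3
  rw [h2] at h4
  have hBN : (0 : ℕ) < B ^ N := by positivity
  have hre : ((((p.1 : ℂ) - p.2.1) + ((p.2.2.1 : ℂ) - p.2.2.2) * Complex.I) /
      (B : ℂ) ^ N).re = ((p.1 : ℝ) - p.2.1) / ((B ^ N : ℕ) : ℝ) := by
    rw [← Nat.cast_pow, Complex.div_natCast_re]
    simp
  have him : ((((p.1 : ℂ) - p.2.1) + ((p.2.2.1 : ℂ) - p.2.2.2) * Complex.I) /
      (B : ℂ) ^ N).im = ((p.2.2.1 : ℝ) - p.2.2.2) / ((B ^ N : ℕ) : ℝ) := by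
    rw [← Nat.cast_pow, Complex.div_natCast_im]
    simp
  have hexpre : (Complex.exp z).re = Real.cos (k * x) := by
    rw [hz, Complex.exp_ofReal_mul_I_re]
  have hexpim : (Complex.exp z).im = Real.sin (k * x) := by
    rw [hz, Complex.exp_ofReal_mul_I_im]
  have hfin : ((⌈(m : ℝ) ^ 2 * Real.exp m⌉₊ + 1 : ℕ) : ℝ) / 2 ^ (3 * n) =
      (⌈(m : ℝ) ^ 2 * Real.exp m⌉₊ : ℝ) / N + 1 / N := by
    rw [← add_div, hN]; push_cast; rfl
  have hNcast : (2 : ℝ) ^ (3 * n) = (N : ℝ) := by rw [hN]; push_cast; rfl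
  rw [hfin, hNcast]
  unfold AA phi
  simp only
  split_ifs with hi
  · refine rnd_approx hN0 hBN (Real.neg_one_le_cos _) ?_
    refine le_trans ?_ h4
    rw [← hre, ← hexpre, ← Complex.sub_re]
    exact Complex.abs_re_le_norm _
  · refine rnd_approx hN0 hBN (Real.neg_one_le_sin _) ?_
    refine le_trans ?_ h4
    rw [← him, ← hexpim, ← Complex.sub_im]
    exact Complex.abs_im_le_norm _

theorem pw_comp : Computable fun x : (ℕ × ℕ) × ℕ => pw x.1.1 x.1.2 x.2 := by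
  have h1 : Computable fun x : (ℕ × ℕ) × ℕ => (Nat.rec (1, 0, 0, 0)
      (fun _ IH => st x.1.1 x.1.2 IH) x.2 : ℕ × ℕ × ℕ × ℕ) := by
    refine Computable.nat_rec (f := fun x : (ℕ × ℕ) × ℕ => x.2)
      (g := fun _ : (ℕ × ℕ) × ℕ => ((1, 0, 0, 0) : ℕ × ℕ × ℕ × ℕ))
      (h := fun (x : (ℕ × ℕ) × ℕ) (y : ℕ × (ℕ × ℕ × ℕ × ℕ)) => st x.1.1 x.1.2 y.2)
      (by fun_prop) (by fun_prop) ?_
    have h2 : Computable fun z : ((ℕ × ℕ) × ℕ) × (ℕ × (ℕ × ℕ × ℕ × ℕ)) =>
        st z.1.1.1 z.1.1.2 z.2.2 := by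
      unfold st
      fun_prop
    exact h2
  refine h1.of_eq fun x => ?_
  obtain ⟨⟨B, J⟩, n⟩ := x
  induction n with
  | zero => rfl
  | succ n ih => simp only [pw] at ih ⊢; rw [← ih]

theorem AA_comp (m i : ℕ) : Computable (AA m i) := by
  have hpow : ∀ {f g : ℕ × ℕ → ℕ}, Computable f → Computable g →
      Computable fun x => f x ^ g x := fun hf hg => (Pool.Agent.Helper227.primrec_pow.comp
        Primrec.fst Primrec.snd).to_comp.comp (hf.pair hg)
  have hdiv : ∀ {f g : ℕ × ℕ → ℕ}, Computable f → Computable g →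
      Computable fun x => f x / g x := fun hf hg => Primrec.nat_div.to_comp.comp hf hg
  have hrnd : ∀ {f1 f2 f3 f4 : ℕ × ℕ → ℕ}, Computable f1 → Computable f2 → Computable f3 →
      Computable f4 → Computable fun x => rnd (f1 x) (f2 x) (f3 x) (f4 x) := by
    intro f1 f2 f3 f4 h1 h2 h3 h4
    unfold rnd
    exact hdiv (by fun_prop) h2
  have hN : Computable fun x : ℕ × ℕ => 2 ^ (3 * x.1) := comp_pow (by fun_prop)
  have h2 : Computable fun x : ℕ × ℕ => 2 ^ x.1 := comp_pow (by fun_prop)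
  have hB : Computable fun x : ℕ × ℕ => 2 ^ (3 * x.1) * 2 ^ x.1 := by fun_prop
  have hp : Computable fun x : ℕ × ℕ => pw (2 ^ (3 * x.1) * 2 ^ x.1) (min (i / 2) m * x.2)
      (2 ^ (3 * x.1)) := pw_comp.comp (g := fun x : ℕ × ℕ =>
        ((2 ^ (3 * x.1) * 2 ^ x.1, min (i / 2) m * x.2), 2 ^ (3 * x.1))) (by fun_prop)
  by_cases hi : i % 2 = 0
  · have h3 : AA m i = fun x => rnd (2 ^ (3 * x.1)) ((2 ^ (3 * x.1) * 2 ^ x.1) ^ (2 ^ (3 * x.1)))
      (pw (2 ^ (3 * x.1) * 2 ^ x.1) (min (i / 2) m * x.2) (2 ^ (3 * x.1))).1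
      (pw (2 ^ (3 * x.1) * 2 ^ x.1) (min (i / 2) m * x.2) (2 ^ (3 * x.1))).2.1 := by
      funext x; unfold AA; rw [if_pos hi]
    rw [h3]
    exact hrnd hN (hpow hB hN) (Computable.fst.comp hp)
      (Computable.fst.comp (Computable.snd.comp hp))
  · have h3 : AA m i = fun x => rnd (2 ^ (3 * x.1)) ((2 ^ (3 * x.1) * 2 ^ x.1) ^ (2 ^ (3 * x.1)))
      (pw (2 ^ (3 * x.1) * 2 ^ x.1) (min (i / 2) m * x.2) (2 ^ (3 * x.1))).2.2.1
      (pw (2 ^ (3 * x.1) * 2 ^ x.1) (min (i / 2) m * x.2) (2 ^ (3 * x.1))).2.2.2 := by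
      funext x; unfold AA; rw [if_neg hi]
    rw [h3]
    exact hrnd hN (hpow hB hN) (Computable.fst.comp (Computable.snd.comp (Computable.snd.comp hp)))
      (Computable.snd.comp (Computable.snd.comp (Computable.snd.comp hp)))

/-- the family of trigonometric polynomials of degree at most `m` -/
theorem fam (m : ℕ) : Fam (2 * (m + 1)) (phi m) (AA m) cc (⌈(m : ℝ) ^ 2 * Real.exp m⌉₊ + 1)
    ((2 * m + 1) * 16 ^ m) (2 * m) where
  comp := AA_comp m
  approx i n j hj := AA_approx m i n j hj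
  zero := phi_zero m
  c0_le i := by unfold cc; split_ifs <;> norm_num
  le := phi_le m
  rem v N s ε J hJ hs hcard h := rem_trig m v N s ε J hJ hs hcard h

/-- every trigonometric polynomial has a graph with points of two dimensions -/
theorem trig_two {U : List Bool →. List Bool} {code : ℚ × ℚ → List Bool} (hU : PrefixUniversal U)
    (hc : IsCoding code) (m : ℕ) (a b : ℕ → ℝ) :
    ∃ x : ℝ, dim U code (x, trig m a b x) ≠ dim U code (0, trig m a b 0) := by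
  set B : ℝ := |a 0| + ∑ k ∈ Finset.Icc 1 m, (|a k| + |b k|) with hB
  have hB0 : 0 ≤ B := by positivity
  have htrig : ∀ x, |trig m a b x| ≤ B := by
    intro x
    unfold trig
    refine (abs_add_le _ _).trans (add_le_add_right ?_ _)
    refine (Finset.abs_sum_le_sum_abs _ _).trans (Finset.sum_le_sum fun k _ => ?_)
    refine (abs_add_le _ _).trans ?_
    rw [abs_mul, abs_mul]
    have h1 := Real.abs_cos_le_one (k * x)
    have h2 := Real.abs_sin_le_one (k * x)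
    nlinarith [abs_nonneg (a k), abs_nonneg (b k)]
  obtain ⟨Y, hY⟩ := exists_nat_ge (B + 1)
  let v : ℕ → ℝ := fun i => if i = 0 then 0 else if i = 1 then
    a 0 - ∑ k ∈ Finset.Icc 1 m, (a k + b k) + Y else if i % 2 = 0 then a (i / 2) else b (i / 2)
  obtain ⟨M, hM⟩ := exists_nat_ge (∑ i ∈ Finset.range (2 * (m + 1)), |v i|)
  obtain ⟨Lf, hLf⟩ := exists_nat_ge (∑ k ∈ Finset.Icc 1 m, (k : ℝ) * (|a k| + |b k|))
  refine two_dims hU hc (fam m) (M := M) (Y := Y) (trig m a b) v ?_ ?_ ?_ Lf ?_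
  · intro i hi
    refine le_trans ?_ hM
    exact Finset.single_le_sum (f := fun i => |v i|) (fun _ _ => abs_nonneg _)
      (Finset.mem_range.2 hi)
  · intro x
    rw [sum_pairs, Finset.sum_range_succ']
    have h1 : ∀ k ∈ Finset.range m, v (2 * (k + 1)) * phi m (2 * (k + 1)) x +
        v (2 * (k + 1) + 1) * phi m (2 * (k + 1) + 1) x =
        (a (k + 1) * Real.cos ((k + 1 : ℕ) * x) + b (k + 1) * Real.sin ((k + 1 : ℕ) * x)) +
          (a (k + 1) + b (k + 1)) := by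
      intro k hk
      rw [Finset.mem_range] at hk
      simp only [v, phi]
      rw [if_neg (by omega), if_neg (by omega), if_pos (by omega), if_pos (by omega),
        if_neg (by omega), if_neg (by omega), if_neg (by omega), if_neg (by omega),
        show 2 * (k + 1) / 2 = k + 1 by omega, show (2 * (k + 1) + 1) / 2 = k + 1 by omega,
        min_eq_left (by omega : k + 1 ≤ m)]
      ring
    rw [Finset.sum_congr rfl h1, Finset.sum_add_distrib]
    have h2 : ∀ g : ℕ → ℝ, ∑ k ∈ Finset.range m, g (k + 1) = ∑ k ∈ Finset.Icc 1 m, g k := by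
      intro g
      rw [Finset.range_eq_Ico, Finset.sum_Ico_add' g 0 m 1]
      rfl
    rw [h2 (fun k => a k * Real.cos (k * x) + b k * Real.sin (k * x)), h2 (fun k => a k + b k)]
    unfold trig
    simp [v, phi]
    ring
  · intro x
    have := (abs_le.1 (htrig x)).1
    linarith
  · intro x y
    unfold trig
    rw [add_sub_add_left_eq_sub, ← Finset.sum_sub_distrib]
    refine (Finset.abs_sum_le_sum_abs _ _).trans ?_
    refine le_trans (Finset.sum_le_sum (g := fun k : ℕ => (k : ℝ) * (|a k| + |b k|) * |x - y|) fun k _ => ?_) ?_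
    · have h1 : a k * Real.cos (k * x) + b k * Real.sin (k * x) -
          (a k * Real.cos (k * y) + b k * Real.sin (k * y)) =
          a k * (Real.cos (k * x) - Real.cos (k * y)) + b k * (Real.sin (k * x) - Real.sin (k * y)) := by
        ring
      rw [h1]
      refine (abs_add_le _ _).trans ?_
      rw [abs_mul, abs_mul]
      have h2 : |(k : ℝ) * x - k * y| = k * |x - y| := by
        rw [← mul_sub, abs_mul, abs_of_nonneg (Nat.cast_nonneg k : (0 : ℝ) ≤ k)]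
      have h3 : |Real.cos (k * x) - Real.cos (k * y)| ≤ k * |x - y| := by
        rw [← h2]
        exact Real.abs_cos_sub_cos_le _ _
      have h4 : |Real.sin (k * x) - Real.sin (k * y)| ≤ k * |x - y| := by
        rw [← h2]
        exact Real.abs_sin_sub_sin_le _ _
      nlinarith [abs_nonneg (a k), abs_nonneg (b k), mul_le_mul_of_nonneg_left h3 (abs_nonneg (a k)),
        mul_le_mul_of_nonneg_left h4 (abs_nonneg (b k))]
    · rw [← Finset.sum_mul]
      exact mul_le_mul_of_nonneg_right hLf (abs_nonneg _)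

end Pool.Agent.X234.TD
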