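import Pool.Agent.X234.TD.Count

/-!
The number of outputs; the true function is in the family.
-/

set_option autoImplicit false

namespace Pool.Agent.X234.TD

open scoped ENNReal
open Filter MeasureTheory Pool.Agent.Helper227 Finset

variable {U : List Bool →. List Bool} {code : ℚ × ℚ → List Bool}

theorem SS_card (hU : IsUniversal U) (hc : IsCoding code) {D : ℕ} {φ : ℕ → ℝ → ℝ}
    {A : ℕ → ℕ × ℕ → ℕ} {c0 : ℕ → ℕ} {E C κ : ℕ} (hF : Fam D φ A c0 E C κ) {M h Y L q : ℕ}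
    (t : ℕ) (W : Finset (List Bool))
    (hW : ∀ w ∈ W, SS U code D A c0 M h Y L (q + 4) (q + 5) (D + 10) t w) :
    W.card ≤ (32 * (C * (2 * L + 2 * D * M * E) * 2 ^ h + 1)) * 2 ^ ((4 * κ + 2) * t) := by
  classical
  rcases W.eq_empty_or_nonempty with rfl | hne
  · simp
  have ht : D + 10 ≤ t := by
    obtain ⟨w, hw⟩ := hne
    exact (hW w hw).1
  have hW2 : ∀ w ∈ W, ∃ z, Near U code D A M h Y L (q + 4) (q + 5) t z ∧
      out code D c0 h Y (q + 4) t z.1 = w := fun w hw => (hW w hw).2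
  choose! z hz hout using hW2
  let l : List Bool → ℤ := fun w => (lin D c0 0 (z w).1 : ℤ) - lin D c0 1 (z w).1
  have hl : ∀ w ∈ W, ∀ w' ∈ W, l w = l w' → w = w' := by
    intro w hw w' hw' hww
    rw [← hout w hw, ← hout w' hw']
    unfold out
    congr 1
    unfold vec
    have h1 : (lin D c0 0 (z w).1 : ℚ) - lin D c0 1 (z w).1 =
        (lin D c0 0 (z w').1 : ℚ) - lin D c0 1 (z w').1 := by
      have h2 := congrArg (Int.cast : ℤ → ℚ) hww
      simp only [l] at h2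
      push_cast at h2
      exact h2
    refine Prod.ext rfl ?_
    push_cast
    congr 1
    linarith
  set C1 := C * (2 * L + 2 * D * M * E) * 2 ^ h with hC1
  set τ := 2 ^ t with hτ
  have hτ0 : 0 < τ := by positivity
  set R := C1 * τ ^ (4 * κ) + 1 with hR
  by_contra hcon
  push Not at hcon
  have hbig : R * (32 * τ ^ 2) < W.card := by
    refine lt_of_le_of_lt ?_ hcon
    have h1 : 2 ^ ((4 * κ + 2) * t) = τ ^ (4 * κ) * τ ^ 2 := by
      rw [hτ, ← pow_mul, ← pow_mul, ← pow_add]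
      congr 1
      ring
    rw [h1, hR]
    have h2 : 1 ≤ τ ^ (4 * κ) := Nat.one_le_pow _ _ hτ0
    calc (C1 * τ ^ (4 * κ) + 1) * (32 * τ ^ 2) ≤
          (C1 * τ ^ (4 * κ) + τ ^ (4 * κ)) * (32 * τ ^ 2) := by gcongr
      _ = 32 * (C1 + 1) * (τ ^ (4 * κ) * τ ^ 2) := by ring
  obtain ⟨ρ, -, hρ⟩ := Finset.exists_lt_card_fiber_of_mul_lt_card_of_maps_to
    (s := W) (t := Finset.range R) (f := fun w => (l w % (R : ℤ)).toNat) (n := 32 * τ ^ 2) (by
      intro w _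
      have h1 := Int.emod_nonneg (l w) (b := (R : ℤ)) (by omega)
      have h2 := Int.emod_lt_of_pos (l w) (b := (R : ℤ)) (by omega)
      rw [Finset.mem_range]
      omega) (by rw [Finset.card_range]; exact hbig)
  obtain ⟨W', hW', hcard⟩ := Finset.exists_subset_card_eq hρ.le
  have hW'W : ∀ w ∈ W', w ∈ W := fun w hw => (Finset.mem_filter.1 (hW' hw)).1
  have hP : 2 ^ ((q + 4) * t) = 2 ^ (q * t) * τ ^ 4 := by
    rw [hτ, ← pow_mul, ← pow_add]; congr 1; ring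
  have h1 := comb W' (fun w => (z w).2.toFinset) (2 ^ (q * t) * τ ^ 3) (D * 2 ^ (q * t)) (by
      intro w hw
      have h2 := hz w (hW'W w hw)
      have h3 : (z w).2.Nodup := List.Nodup.of_map _ h2.2.1
      rw [List.toFinset_card_of_nodup h3]
      have h4 := h2.2.2.1
      rw [hP, ← hτ] at h4
      refine Nat.le_of_mul_le_mul_right ?_ hτ0
      calc 2 ^ (q * t) * τ ^ 3 * τ = 2 ^ (q * t) * τ ^ 4 := by ring
        _ ≤ _ := h4) (by
      intro w hw w' hw' hne'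
      by_contra hlt
      push Not at hlt
      have h2 := close hF (hz w (hW'W w hw)) (hz w' (hW'W w' hw')) (s := 2 ^ (q * t))
        (by positivity) hlt.le
      rw [← lin_sub, ← lin_sub] at h2
      have h3 : ((2 ^ (q * t) : ℕ) : ℝ) / 2 ^ ((q + 4) * t) = ((τ : ℝ) ^ 4)⁻¹ := by
        have h4 : (2 : ℝ) ^ ((q + 4) * t) = 2 ^ (q * t) * (τ : ℝ) ^ 4 := by exact_mod_cast hP
        rw [h4]
        push_cast
        field_simp
      rw [h3, inv_pow, ← div_eq_mul_inv, div_le_iff₀ (by positivity)] at h2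
      have h4 : |(l w : ℝ) - l w'| ≤ (R : ℝ) - 1 := by
        have h5 : (l w : ℝ) - l w' = ((lin D c0 0 (z w).1 : ℝ) - lin D c0 1 (z w).1) -
            ((lin D c0 0 (z w').1 : ℝ) - lin D c0 1 (z w').1) := by
          simp only [l]; push_cast; ring
        rw [h5]
        refine h2.trans (le_of_eq ?_)
        rw [hR, hC1]
        push_cast
        ring
      have h5 : |l w - l w'| < (R : ℤ) := by
        have h6 : ((|l w - l w'| : ℤ) : ℝ) < ((R : ℤ) : ℝ) := by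
          push_cast
          linarith
        exact_mod_cast h6
      have h6 := (Finset.mem_filter.1 (hW' hw)).2
      have h7 := (Finset.mem_filter.1 (hW' hw')).2
      have h8 := Int.emod_nonneg (l w) (b := (R : ℤ)) (by omega)
      have h9 := Int.emod_nonneg (l w') (b := (R : ℤ)) (by omega)
      have h10 : l w % (R : ℤ) = l w' % (R : ℤ) := by omega
      have h11 : (R : ℤ) ∣ l w - l w' :=
        Int.ModEq.dvd (show l w' ≡ l w [ZMOD R] from h10.symm)
      have h12 := Int.eq_zero_of_abs_lt_dvd h11 h5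
      exact hne' (hl w (hW'W w hw) w' (hW'W w' hw') (by omega)))
  have h2 := card_PP hU hc (q + 4) (q + 5) Y t (W'.biUnion fun w => (z w).2.toFinset) (by
      intro x hx
      obtain ⟨w, hw, hx⟩ := Finset.mem_biUnion.1 hx
      rw [List.mem_toFinset] at hx
      exact ((hz w (hW'W w hw)).2.2.2 x hx).2.1)
  have hP5 : 2 ^ ((q + 5) * t) = 2 ^ (q * t) * τ ^ 5 := by
    rw [hτ, ← pow_mul, ← pow_add]; congr 1; ring
  rw [hP5] at h2
  rw [hcard] at h1
  set P := 2 ^ (q * t) with hPdef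
  have hP0 : 0 < P := by positivity
  have hD : D * 1024 ≤ τ := by
    have h3 : D < 2 ^ D := Nat.lt_two_pow_self
    calc D * 1024 ≤ 2 ^ D * 2 ^ 10 := Nat.mul_le_mul h3.le (by norm_num)
      _ = 2 ^ (D + 10) := (pow_add _ _ _).symm
      _ ≤ τ := Nat.pow_le_pow_right (by norm_num) ht
  have h3 : (32 * τ ^ 2) ^ 2 * (D * P) ≤ P * τ ^ 5 := by
    calc (32 * τ ^ 2) ^ 2 * (D * P) = (D * 1024) * (P * τ ^ 4) := by ring
      _ ≤ τ * (P * τ ^ 4) := Nat.mul_le_mul_right _ hD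
      _ = P * τ ^ 5 := by ring
  have h4 : 32 * τ ^ 2 * (P * τ ^ 3) = 32 * (P * τ ^ 5) := by ring
  rw [h4] at h1
  have h5 : 0 < P * τ ^ 5 := by positivity
  omega

/-- coefficient list -/
noncomputable def ulist (D : ℕ) (v : ℕ → ℝ) (N : ℝ) : List ℕ :=
  (List.range (2 * D)).map fun k =>
    if k % 2 = 0 then ⌊max (v (k / 2)) 0 * N⌋₊ else ⌊max (-v (k / 2)) 0 * N⌋₊

theorem ulist_getD (D : ℕ) (v : ℕ → ℝ) (N : ℝ) {k : ℕ} (hk : k < 2 * D) :
    (ulist D v N).getD k 0 =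
      if k % 2 = 0 then ⌊max (v (k / 2)) 0 * N⌋₊ else ⌊max (-v (k / 2)) 0 * N⌋₊ := by
  unfold ulist
  rw [List.getD_eq_getElem _ _ (by simpa using hk)]
  simp

theorem ulist_val (D : ℕ) (v : ℕ → ℝ) {N : ℝ} (hN : 0 ≤ N) {i : ℕ} (hi : i < D) :
    |val (ulist D v N) i - v i * N| ≤ 1 := by
  unfold val
  rw [ulist_getD D v N (by omega), ulist_getD D v N (by omega), if_pos (by omega),
    if_neg (by omega), show 2 * i / 2 = i by omega, show (2 * i + 1) / 2 = i by omega]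
  rcases le_total 0 (v i) with h | h
  · rw [max_eq_left h, max_eq_right (by linarith), zero_mul, Nat.floor_zero, Nat.cast_zero,
      sub_zero, abs_le]
    have h1 := Nat.floor_le (mul_nonneg h hN)
    have h2 := Nat.lt_floor_add_one (v i * N)
    constructor <;> linarith
  · rw [max_eq_right h, max_eq_left (by linarith), zero_mul, Nat.floor_zero, Nat.cast_zero,
      zero_sub, abs_le]
    have h1 := Nat.floor_le (mul_nonneg (neg_nonneg.2 h) hN)
    have h2 := Nat.lt_floor_add_one (-v i * N)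
    constructor <;> linarith

theorem JJ_PP {Y q e t : ℕ} (f : ℝ → ℝ) (hY : ∀ x, -(Y : ℝ) + 1 ≤ f x)
    (Lf : ℕ) (hL : ∀ x y, |f x - f y| ≤ Lf * |x - y|) :
    ∀ j ∈ JJ U code f q e t, ∃ y : ℕ, PP U code q e Y t j y ∧
      |f ((j : ℝ) / 2 ^ (q * t)) + Y - y / 2 ^ (q * t)| ≤ (Lf + 2) / 2 ^ (q * t) := by
  classical
  set n := q * t with hn
  have hp : (0 : ℝ) < 2 ^ n := by positivity
  intro j hj
  unfold JJ at hj
  rw [Finset.mem_filter] at hj
  obtain ⟨-, x, hx1, hx2, hx3⟩ := hj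
  obtain ⟨r, hr1, hr2⟩ := Kr_spec U code (x, f x) (q * t)
  rw [← hn] at hr1 hr2 hx1 hx2 hx3
  simp only at hr1
  have e1 : |(r.1 : ℝ) - x| < (1 / 2) ^ n := by
    refine lt_of_le_of_lt ?_ hr1
    apply Real.abs_le_sqrt
    nlinarith [sq_nonneg ((r.2 : ℝ) - f x)]
  have e2 : |(r.2 : ℝ) - f x| < (1 / 2) ^ n := by
    refine lt_of_le_of_lt ?_ hr1
    apply Real.abs_le_sqrt
    nlinarith [sq_nonneg ((r.1 : ℝ) - x)]
  have e3 : (1 / 2 : ℝ) ^ n * 2 ^ n = 1 := by
    rw [← mul_pow]; norm_num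
  have e3' : (1 / 2 : ℝ) ^ n = 1 / 2 ^ n := by rw [one_div_pow]
  have e4 : (1 / 2 : ℝ) ^ n ≤ 1 := pow_le_one₀ (by norm_num) (by norm_num)
  have e5 : (0 : ℝ) ≤ ((r.2 : ℝ) + Y) * 2 ^ n := by
    refine mul_nonneg ?_ hp.le
    have := (abs_lt.1 e2).1
    linarith [hY x]
  have e6 := Nat.floor_le e5
  have e7 := Nat.lt_floor_add_one (((r.2 : ℝ) + Y) * 2 ^ n)
  rw [div_le_iff₀ hp] at hx1
  rw [lt_div_iff₀ hp] at hx2
  refine ⟨⌊((r.2 : ℝ) + Y) * 2 ^ n⌋₊, ⟨r, ?_, ?_, ?_⟩, ?_⟩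
  · rw [← hr2]; exact hx3
  · have e8 : |(r.1 : ℝ) * 2 ^ n - j| ≤ 2 := by
      have e9 : (r.1 : ℝ) * 2 ^ n - j = ((r.1 : ℝ) - x) * 2 ^ n + (x * 2 ^ n - j) := by ring
      rw [e9]
      refine (abs_add_le _ _).trans ?_
      have e10 : |((r.1 : ℝ) - x) * 2 ^ n| ≤ 1 := by
        rw [abs_mul, abs_of_pos hp, ← e3]
        exact mul_le_mul_of_nonneg_right e1.le hp.le
      have e11 : |x * 2 ^ n - j| ≤ 1 := by
        rw [abs_le]; constructor <;> linarith
      linarith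
    exact_mod_cast e8
  · have e8 : |((r.2 : ℝ) + Y) * 2 ^ n - (⌊((r.2 : ℝ) + Y) * 2 ^ n⌋₊ : ℕ)| ≤ 1 := by
      rw [abs_le]; constructor <;> linarith
    exact_mod_cast e8
  · have e8 : f ((j : ℝ) / 2 ^ n) + Y - (⌊((r.2 : ℝ) + Y) * 2 ^ n⌋₊ : ℕ) / 2 ^ n =
        (f ((j : ℝ) / 2 ^ n) - f x) + (f x - r.2) +
        (((r.2 : ℝ) + Y) * 2 ^ n - (⌊((r.2 : ℝ) + Y) * 2 ^ n⌋₊ : ℕ)) / 2 ^ n := by
      field_simp
      ring
    rw [e8]
    refine (abs_add_le _ _).trans ?_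
    have e9 : |(((r.2 : ℝ) + Y) * 2 ^ n - (⌊((r.2 : ℝ) + Y) * 2 ^ n⌋₊ : ℕ)) / 2 ^ n| ≤
        1 / 2 ^ n := by
      rw [abs_div, abs_of_pos hp]
      refine div_le_div_of_nonneg_right ?_ hp.le
      rw [abs_le]; constructor <;> linarith
    have e10 : |f ((j : ℝ) / 2 ^ n) - f x| ≤ Lf / 2 ^ n := by
      refine (hL _ _).trans ?_
      rw [div_eq_mul_one_div (Lf : ℝ)]
      refine mul_le_mul_of_nonneg_left ?_ (Nat.cast_nonneg _)
      rw [abs_le]
      have e12 : (j : ℝ) / 2 ^ n ≤ x := by rw [div_le_iff₀ hp]; exact hx1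
      have e13 : x < (j : ℝ) / 2 ^ n + 1 / 2 ^ n := by
        rw [← add_div, lt_div_iff₀ hp]; exact hx2
      constructor <;> linarith
    have e11 : |f x - r.2| ≤ 1 / 2 ^ n := by
      rw [abs_sub_comm, ← e3']; exact e2.le
    have e14 := abs_add_le (f ((j : ℝ) / 2 ^ n) - f x) (f x - r.2)
    have e15 : ((Lf : ℝ) + 2) / 2 ^ n = Lf / 2 ^ n + 1 / 2 ^ n + 1 / 2 ^ n := by ring
    rw [e15]
    linarith

theorem SS_mem {D : ℕ} {φ : ℕ → ℝ → ℝ}
    {A : ℕ → ℕ × ℕ → ℕ} {c0 : ℕ → ℕ} {E C κ : ℕ} (hF : Fam D φ A c0 E C κ) {M Y q : ℕ}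
    (f : ℝ → ℝ) (v : ℕ → ℝ) (hv : ∀ i < D, |v i| ≤ M)
    (hf : ∀ x, f x + Y = ∑ i ∈ Finset.range D, v i * φ i x) (hY : ∀ x, -(Y : ℝ) + 1 ≤ f x)
    (Lf : ℕ) (hL : ∀ x y, |f x - f y| ≤ Lf * |x - y|) {t : ℕ} (ht : D + 10 ≤ t)
    (hJ : 2 ^ ((q + 4) * t) ≤ (JJ U code f (q + 4) (q + 5) t).card * 2 ^ t) :
    ∃ w, SS U code D A c0 M (D + 1) Y (Lf + 2 + D * (2 + E) + D * M * E) (q + 4) (q + 5) (D + 10)
      t w ∧ Kr U code (0, f 0) ((q + 4) * t) ≤ K U w := by
  classical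
  set n := (q + 4) * t with hn
  set h := D + 1 with hh
  set L := Lf + 2 + D * (2 + E) + D * M * E with hLdef
  have hp : (0 : ℝ) < 2 ^ n := by positivity
  -- the points
  have h1 : ∀ j ∈ JJ U code f (q + 4) (q + 5) t, ∃ y : ℕ, PP U code (q + 4) (q + 5) Y t j y ∧
      |f ((j : ℝ) / 2 ^ n) + Y - y / 2 ^ n| ≤ (Lf + 2) / 2 ^ n :=
    JJ_PP f hY Lf hL
  choose! y hy1 hy2 using h1
  set u := ulist D v (2 ^ (n + h)) with hu
  have hval : ∀ i ∈ Finset.range D, |val u i - v i * 2 ^ (n + h)| ≤ 1 := fun i hi =>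
    ulist_val D v (by positivity) (Finset.mem_range.1 hi)
  have hA : ∀ i j, j < 2 ^ n → |(A i (n, j) : ℝ) - φ i (j / 2 ^ n) * 2 ^ (3 * n)| ≤ E := by
    intro i j hj
    have h2 := hF.approx i n j hj
    have h3 : (A i (n, j) : ℝ) / 2 ^ (3 * n) - φ i (j / 2 ^ n) =
        ((A i (n, j) : ℝ) - φ i (j / 2 ^ n) * 2 ^ (3 * n)) / 2 ^ (3 * n) := by
      field_simp
    rw [h3, abs_div, abs_of_pos (by positivity : (0 : ℝ) < 2 ^ (3 * n)),
      div_le_div_iff_of_pos_right (by positivity)] at h2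
    exact h2
  have hA2 : ∀ i j, j < 2 ^ n → (A i (n, j) : ℝ) ≤ (2 + E) * 2 ^ (3 * n) := by
    intro i j hj
    have h2 := (abs_le.1 (hA i j hj)).2
    have h3 := (abs_le.1 (hF.le i ((j : ℝ) / 2 ^ n))).2
    have h4 : (1 : ℝ) ≤ 2 ^ (3 * n) := one_le_pow₀ (by norm_num)
    have h5 : (0 : ℝ) ≤ E := Nat.cast_nonneg _
    nlinarith
  refine ⟨out code D c0 h Y (q + 4) t u, ⟨ht, (u, (JJ U code f (q + 4) (q + 5) t).toList.map
    fun j => (j, y j)), ⟨?_, ?_, ?_, ?_⟩, rfl⟩, ?_⟩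
  · intro i hi
    simp only
    rw [hu, ulist_getD D v _ hi]
    have h2 : ∀ a : ℝ, a ≤ M → ⌊max a 0 * 2 ^ (n + h)⌋₊ ≤ M * 2 ^ (n + h) := by
      intro a ha
      apply Nat.floor_le_of_le
      push_cast
      refine mul_le_mul_of_nonneg_right ?_ (by positivity)
      exact max_le ha (Nat.cast_nonneg _)
    have h3 := abs_le.1 (hv (i / 2) (by omega))
    split_ifs
    · exact h2 _ h3.2
    · exact h2 _ (by linarith)
  · simp only [List.map_map]
    have h2 : (Prod.fst ∘ fun j : ℕ => (j, y j)) = id := rfl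
    rw [h2, List.map_id]
    exact Finset.nodup_toList _
  · simp only [List.length_map, Finset.length_toList]
    exact hJ
  · intro x hx
    simp only [List.mem_map, Finset.mem_toList] at hx
    obtain ⟨j, hj, rfl⟩ := hx
    have hj2 : j < 2 ^ n := by
      unfold JJ at hj
      exact Finset.mem_range.1 (Finset.mem_filter.1 hj).1
    refine ⟨hj2, hy1 j hj, near_iff.2 ?_⟩
    simp only
    rw [← hn]
    have h2 : ∑ i ∈ Finset.range D, val u i * A i (n, j) - y j * 2 ^ (h + 3 * n) =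
        ∑ i ∈ Finset.range D, (val u i - v i * 2 ^ (n + h)) * A i (n, j) +
        2 ^ (n + h) * ∑ i ∈ Finset.range D, v i *
          (A i (n, j) - φ i (j / 2 ^ n) * 2 ^ (3 * n)) +
        2 ^ (n + h) * 2 ^ (3 * n) * (f ((j : ℝ) / 2 ^ n) + Y - y j / 2 ^ n) := by
      rw [hf, Finset.mul_sum, mul_sub, Finset.mul_sum, ← Finset.sum_add_distrib]
      have h3 : (2 : ℝ) ^ (n + h) * 2 ^ (3 * n) * (y j / 2 ^ n) = y j * 2 ^ (h + 3 * n) := by
        rw [pow_add 2 n h, pow_add 2 h (3 * n)]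
        field_simp
      rw [h3, ← add_sub_assoc, ← Finset.sum_add_distrib]
      congr 1
      refine Finset.sum_congr rfl fun i _ => ?_
      ring
    rw [h2]
    have h3 : |∑ i ∈ Finset.range D, (val u i - v i * 2 ^ (n + h)) * A i (n, j)| ≤
        D * (2 + E) * 2 ^ (3 * n) := by
      refine (Finset.abs_sum_le_sum_abs _ _).trans ?_
      have h4 : ∀ i ∈ Finset.range D, |(val u i - v i * 2 ^ (n + h)) * A i (n, j)| ≤
          (2 + E) * 2 ^ (3 * n) := by
        intro i hi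
        rw [abs_mul, abs_of_nonneg (Nat.cast_nonneg (A i (n, j)) : (0 : ℝ) ≤ _)]
        calc _ ≤ 1 * (A i (n, j) : ℝ) :=
              mul_le_mul_of_nonneg_right (hval i hi) (Nat.cast_nonneg _)
          _ ≤ _ := by rw [one_mul]; exact hA2 i j hj2
      refine (Finset.sum_le_sum h4).trans (le_of_eq ?_)
      rw [Finset.sum_const, Finset.card_range, nsmul_eq_mul]
      ring
    have h5 : |∑ i ∈ Finset.range D, v i * (A i (n, j) - φ i (j / 2 ^ n) * 2 ^ (3 * n))| ≤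
        D * M * E := by
      refine (Finset.abs_sum_le_sum_abs _ _).trans ?_
      have h6 : ∀ i ∈ Finset.range D, |v i * (A i (n, j) - φ i (j / 2 ^ n) * 2 ^ (3 * n))| ≤
          M * E := by
        intro i hi
        rw [abs_mul]
        exact mul_le_mul (hv i (Finset.mem_range.1 hi)) (hA i j hj2) (abs_nonneg _)
          (Nat.cast_nonneg _)
      refine (Finset.sum_le_sum h6).trans (le_of_eq ?_)
      rw [Finset.sum_const, Finset.card_range, nsmul_eq_mul]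
      ring
    have h7 := hy2 j hj
    have h8 : (1 : ℝ) ≤ 2 ^ h := one_le_pow₀ (by norm_num)
    have h9 : (2 : ℝ) ^ n ≤ 2 ^ (3 * n) := pow_le_pow_right₀ (by norm_num) (by omega)
    have h10 : (0 : ℝ) < 2 ^ (3 * n) := by positivity
    have h11 : (0 : ℝ) < 2 ^ h := by positivity
    have g1 : (D : ℝ) * (2 + E) * 2 ^ (3 * n) ≤ D * (2 + E) * 2 ^ (h + 3 * n) := by
      refine mul_le_mul_of_nonneg_left ?_ (by positivity)
      exact pow_le_pow_right₀ (by norm_num) (by omega)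
    have g2 : (2 : ℝ) ^ (n + h) * (D * M * E) ≤ D * M * E * 2 ^ (h + 3 * n) := by
      rw [mul_comm]
      refine mul_le_mul_of_nonneg_left ?_ (by positivity)
      exact pow_le_pow_right₀ (by norm_num) (by omega)
    have g3 : (2 : ℝ) ^ (n + h) * 2 ^ (3 * n) * ((Lf + 2) / 2 ^ n) =
        (Lf + 2) * 2 ^ (h + 3 * n) := by
      rw [pow_add 2 n h, pow_add 2 h (3 * n)]
      field_simp
    refine (abs_add_le _ _).trans ?_
    have g4 := abs_add_le (∑ i ∈ Finset.range D, (val u i - v i * 2 ^ (n + h)) * A i (n, j))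
      (2 ^ (n + h) * ∑ i ∈ Finset.range D, v i *
          (A i (n, j) - φ i (j / 2 ^ n) * 2 ^ (3 * n)))
    have g5 : |2 ^ (n + h) * ∑ i ∈ Finset.range D, v i *
          ((A i (n, j) : ℝ) - φ i (j / 2 ^ n) * 2 ^ (3 * n))| ≤ D * M * E * 2 ^ (h + 3 * n) := by
      rw [abs_mul, abs_of_pos (by positivity : (0 : ℝ) < 2 ^ (n + h))]
      exact (mul_le_mul_of_nonneg_left h5 (by positivity)).trans g2
    have g6 : |2 ^ (n + h) * 2 ^ (3 * n) * (f ((j : ℝ) / 2 ^ n) + Y - y j / 2 ^ n)| ≤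
        (Lf + 2) * 2 ^ (h + 3 * n) := by
      rw [abs_mul, abs_of_pos (by positivity : (0 : ℝ) < 2 ^ (n + h) * 2 ^ (3 * n)), ← g3]
      exact mul_le_mul_of_nonneg_left h7 (by positivity)
    have g7 : (L : ℝ) * 2 ^ (h + 3 * n) = (Lf + 2) * 2 ^ (h + 3 * n) +
        D * (2 + E) * 2 ^ (h + 3 * n) + D * M * E * 2 ^ (h + 3 * n) := by
      rw [hLdef]; push_cast; ring
    rw [g7]
    linarith
  · unfold out
    refine Kr_le ?_
    have h2 : ((2 ^ (n + h) - 1 : ℕ) : ℝ) + 1 = 2 ^ (n + h) := by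
      have h3 : 1 ≤ 2 ^ (n + h) := Nat.one_le_two_pow
      rw [Nat.cast_sub h3]
      push_cast
      ring
    have h3 : (((vec 0 0 (lin D c0 0 u) (lin D c0 1 u + Y * 2 ^ (n + h)) (2 ^ (n + h) - 1)).2 : ℚ) : ℝ)
        = (∑ i ∈ Finset.range D, val u i * c0 i) / 2 ^ (n + h) - Y := by
      unfold vec
      simp only
      rw [← lin_sub D c0 u]
      push_cast
      rw [h2]
      field_simp
      ring
    have h4 : (((vec 0 0 (lin D c0 0 u) (lin D c0 1 u + Y * 2 ^ (n + h)) (2 ^ (n + h) - 1)).1 : ℚ) : ℝ)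
        = 0 := by
      unfold vec
      simp
    rw [h3, h4]
    simp only [sub_zero]
    rw [zero_pow two_ne_zero, zero_add, Real.sqrt_sq_eq_abs]
    have h5 : f 0 = ∑ i ∈ Finset.range D, v i * c0 i - Y := by
      have h6 := hf 0
      have h7 : ∑ i ∈ Finset.range D, v i * φ i 0 = ∑ i ∈ Finset.range D, v i * c0 i :=
        Finset.sum_congr rfl fun i _ => by rw [hF.zero]
      linarith
    rw [h5]
    have h6 : (∑ i ∈ Finset.range D, val u i * c0 i) / 2 ^ (n + h) - Y -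
        (∑ i ∈ Finset.range D, v i * c0 i - Y) =
        (∑ i ∈ Finset.range D, (val u i - v i * 2 ^ (n + h)) * c0 i) / 2 ^ (n + h) := by
      have h7 : ∑ i ∈ Finset.range D, (val u i - v i * 2 ^ (n + h)) * c0 i =
          ∑ i ∈ Finset.range D, val u i * c0 i -
          2 ^ (n + h) * ∑ i ∈ Finset.range D, v i * c0 i := by
        rw [Finset.mul_sum, ← Finset.sum_sub_distrib]
        exact Finset.sum_congr rfl fun i _ => by ring
      rw [h7]
      field_simp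
      ring
    rw [h6, abs_div, abs_of_pos (by positivity : (0 : ℝ) < 2 ^ (n + h)),
      div_lt_iff₀ (by positivity)]
    have h7 : |∑ i ∈ Finset.range D, (val u i - v i * 2 ^ (n + h)) * c0 i| ≤ D * 2 := by
      refine (Finset.abs_sum_le_sum_abs _ _).trans ?_
      have h8 : ∀ i ∈ Finset.range D, |(val u i - v i * 2 ^ (n + h)) * c0 i| ≤ 2 := by
        intro i hi
        rw [abs_mul, abs_of_nonneg (Nat.cast_nonneg (c0 i) : (0 : ℝ) ≤ _)]
        have h9 : (c0 i : ℝ) ≤ 2 := by exact_mod_cast hF.c0_le i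
        calc _ ≤ 1 * (2 : ℝ) := mul_le_mul (hval i hi) h9 (Nat.cast_nonneg _) zero_le_one
          _ = 2 := one_mul _
      refine (Finset.sum_le_sum h8).trans (le_of_eq ?_)
      rw [Finset.sum_const, Finset.card_range, nsmul_eq_mul]
    refine lt_of_le_of_lt h7 ?_
    have h8 : (1 / 2 : ℝ) ^ n * 2 ^ (n + h) = 2 ^ h := by
      rw [pow_add, ← mul_assoc, ← mul_pow]
      norm_num
    rw [h8, hh, pow_succ]
    have h9 : (D : ℝ) < 2 ^ D := by exact_mod_cast (Nat.lt_two_pow_self (n := D))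
    linarith

end Pool.Agent.X234.TD
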