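import Pool.Agent.X234.TD.Fam

/-!
The family of curves near many points of low complexity is r.e. and small.
-/

set_option autoImplicit false

namespace Pool.Agent.X234.TD

open scoped ENNReal
open Filter MeasureTheory Pool.Agent.Helper227 Finset
open Pool.Agent.Helper446.RE (cadd cmul cconst)

variable {U : List Bool →. List Bool} {code : ℚ × ℚ → List Bool}

theorem comp_pow {α : Type} [Primcodable α] {g : α → ℕ} (hg : Computable g) :
    Computable fun a => 2 ^ (g a) :=
  (primrec_pow.comp (Primrec.const 2) Primrec.id).to_comp.comp hg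

theorem comp_getD {α : Type} [Primcodable α] {u : α → List ℕ} {g : α → ℕ} (hu : Computable u)
    (hg : Computable g) : Computable fun a => (u a).getD (g a) 0 :=
  (Primrec.list_getD 0).to_comp.comp hu hg

theorem comp_lin {α : Type} [Primcodable α] (D b : ℕ) {c : ℕ → α → ℕ} {u : α → List ℕ}
    (hu : Computable u) (hc : ∀ i, Computable (c i)) :
    Computable fun a => lin D (fun i => c i a) b (u a) := by
  unfold lin
  induction D with
  | zero => simpa using Computable.const 0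
  | succ D ih =>
    simp only [Finset.sum_range_succ]
    have h1 : Computable fun a => (u a).getD (2 * D + b) 0 := comp_getD hu (Computable.const _)
    have h2 := hc D
    fun_prop

theorem near_re (hU : IsUniversal U) (hc : IsCoding code) {D : ℕ} {A : ℕ → ℕ × ℕ → ℕ}
    (hA : ∀ i, Computable (A i)) (M h Y L q e : ℕ) :
    REPred fun x : ℕ × (List ℕ × List (ℕ × ℕ)) => Near U code D A M h Y L q e x.1 x.2 := by
  unfold Near
  have hP := PP_re hU hc q e Y
  refine Pool.Agent.Helper446.RE.and ?_ (Pool.Agent.Helper446.RE.and ?_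
    (Pool.Agent.Helper446.RE.and ?_ ?_))
  · refine Pool.Agent.Helper446.RE.all_lt (p := fun (x : ℕ × (List ℕ × List (ℕ × ℕ))) i =>
      x.2.1.getD i 0 ≤ M * 2 ^ (q * x.1 + h)) ?_ (by fun_prop)
    have h1 : Computable fun x : (ℕ × (List ℕ × List (ℕ × ℕ))) × ℕ => x.1.2.1.getD x.2 0 :=
      comp_getD (by fun_prop) (by fun_prop)
    have h2 : Computable fun x : (ℕ × (List ℕ × List (ℕ × ℕ))) × ℕ => 2 ^ (q * x.1.1 + h) :=
      comp_pow (by fun_prop)
    exact Pool.Agent.Helper446.RE.le (by fun_prop) (by fun_prop)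
  · exact Pool.Agent.Helper446.RE.cp_nodup
      (l := fun x : ℕ × (List ℕ × List (ℕ × ℕ)) => x.2.2.map Prod.fst) (by fun_prop)
  · have h1 : Computable fun x : ℕ × (List ℕ × List (ℕ × ℕ)) => 2 ^ (q * x.1) :=
      comp_pow (by fun_prop)
    have h2 : Computable fun x : ℕ × (List ℕ × List (ℕ × ℕ)) => 2 ^ x.1 := comp_pow (by fun_prop)
    exact Pool.Agent.Helper446.RE.le (by fun_prop) (by fun_prop)
  · refine Pool.Agent.Helper446.RE.all_mem (p := fun (x : ℕ × (List ℕ × List (ℕ × ℕ)))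
      (y : ℕ × ℕ) => y.1 < 2 ^ (q * x.1) ∧ PP U code q e Y x.1 y.1 y.2 ∧
      lin D (fun i => A i (q * x.1, y.1)) 0 x.2.1 ≤ lin D (fun i => A i (q * x.1, y.1)) 1 x.2.1 +
        (y.2 + L) * 2 ^ (h + 3 * (q * x.1)) ∧
      lin D (fun i => A i (q * x.1, y.1)) 1 x.2.1 + y.2 * 2 ^ (h + 3 * (q * x.1)) ≤
        lin D (fun i => A i (q * x.1, y.1)) 0 x.2.1 + L * 2 ^ (h + 3 * (q * x.1))) ?_
        (by fun_prop)
    have hl : ∀ b, Computable fun a : (ℕ × (List ℕ × List (ℕ × ℕ))) × (ℕ × ℕ) =>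
        lin D (fun i => A i (q * a.1.1, a.2.1)) b a.1.2.1 := by
      intro b
      refine comp_lin D b (c := fun i (a : (ℕ × (List ℕ × List (ℕ × ℕ))) × (ℕ × ℕ)) =>
        A i (q * a.1.1, a.2.1)) (by fun_prop) fun i => ?_
      exact (hA i).comp (g := fun a : (ℕ × (List ℕ × List (ℕ × ℕ))) × (ℕ × ℕ) =>
        (q * a.1.1, a.2.1)) (by fun_prop)
    have hl0 := hl 0
    have hl1 := hl 1
    have h1 : Computable fun x : (ℕ × (List ℕ × List (ℕ × ℕ))) × (ℕ × ℕ) => 2 ^ (q * x.1.1) :=
      comp_pow (by fun_prop)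
    have h2 : Computable fun x : (ℕ × (List ℕ × List (ℕ × ℕ))) × (ℕ × ℕ) =>
      2 ^ (h + 3 * (q * x.1.1)) := comp_pow (by fun_prop)
    have h3 : Computable fun x : (ℕ × (List ℕ × List (ℕ × ℕ))) × (ℕ × ℕ) => x.2.1 := by fun_prop
    have h4 : Computable fun x : (ℕ × (List ℕ × List (ℕ × ℕ))) × (ℕ × ℕ) => x.2.2 := by fun_prop
    refine Pool.Agent.Helper446.RE.and (Pool.Agent.Helper446.RE.lt h3 h1)
      (Pool.Agent.Helper446.RE.and ?_ (Pool.Agent.Helper446.RE.and
        (Pool.Agent.Helper446.RE.le hl0 (cadd hl1 (cmul (cadd h4 (cconst L)) h2)))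
        (Pool.Agent.Helper446.RE.le (cadd hl1 (cmul h4 h2)) (cadd hl0 (cmul (cconst L) h2)))))
    exact Pool.Agent.Helper446.RE.comp (f := fun x : (ℕ × (List ℕ × List (ℕ × ℕ))) × (ℕ × ℕ) =>
      (x.1.1, x.2.1, x.2.2)) hP (by fun_prop)

/-- the outputs of the curves -/
def SS (U : List Bool →. List Bool) (code : ℚ × ℚ → List Bool) (D : ℕ) (A : ℕ → ℕ × ℕ → ℕ)
    (c0 : ℕ → ℕ) (M h Y L q e T t : ℕ) (w : List Bool) : Prop :=
  T ≤ t ∧ ∃ z, Near U code D A M h Y L q e t z ∧ out code D c0 h Y q t z.1 = w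

theorem SS_re (hU : IsUniversal U) (hc : IsCoding code) {D : ℕ} {A : ℕ → ℕ × ℕ → ℕ}
    (hA : ∀ i, Computable (A i)) (c0 : ℕ → ℕ) (M h Y L q e T : ℕ) :
    REPred fun x : ℕ × List Bool => SS U code D A c0 M h Y L q e T x.1 x.2 := by
  unfold SS
  refine Pool.Agent.Helper446.RE.and (Pool.Agent.Helper446.RE.le (by fun_prop) (by fun_prop)) ?_
  refine Pool.Agent.Helper446.RE.ex (p := fun (x : ℕ × List Bool) (z : List ℕ × List (ℕ × ℕ)) =>
    Near U code D A M h Y L q e x.1 z ∧ out code D c0 h Y q x.1 z.1 = x.2) ?_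
  refine Pool.Agent.Helper446.RE.and ?_ ?_
  · exact Pool.Agent.Helper446.RE.comp (f := fun x : (ℕ × List Bool) × (List ℕ × List (ℕ × ℕ)) =>
      (x.1.1, x.2)) (near_re hU hc hA M h Y L q e) (by fun_prop)
  · refine Pool.Agent.Helper446.RE.eq ?_ (by fun_prop)
    unfold out
    have h1 : Computable fun x : (ℕ × List Bool) × (List ℕ × List (ℕ × ℕ)) =>
      2 ^ (q * x.1.1 + h) := comp_pow (by fun_prop)
    have h2 : ∀ b, Computable fun x : (ℕ × List Bool) × (List ℕ × List (ℕ × ℕ)) =>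
      lin D c0 b x.2.1 := fun b => comp_lin D b (c := fun i _ => c0 i) (by fun_prop)
        fun i => Computable.const _
    have h20 := h2 0
    have h21 := h2 1
    exact hc.2.comp (g := fun x : (ℕ × List Bool) × (List ℕ × List (ℕ × ℕ)) =>
      (0, 0, lin D c0 0 x.2.1, lin D c0 1 x.2.1 + Y * 2 ^ (q * x.1.1 + h), 2 ^ (q * x.1.1 + h) - 1))
      (by fun_prop)

/-- two curves with many common points have close values at zero -/
theorem close {D : ℕ} {φ : ℕ → ℝ → ℝ} {A : ℕ → ℕ × ℕ → ℕ} {c0 : ℕ → ℕ} {E C κ : ℕ}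
    (hF : Fam D φ A c0 E C κ) {M h Y L q e t : ℕ} {z z' : List ℕ × List (ℕ × ℕ)}
    (hz : Near U code D A M h Y L q e t z) (hz' : Near U code D A M h Y L q e t z') {s : ℕ}
    (hs : 0 < s) (hcard : D * s ≤ (z.2.toFinset ∩ z'.2.toFinset).card) :
    |∑ i ∈ Finset.range D, val z.1 i * c0 i - ∑ i ∈ Finset.range D, val z'.1 i * c0 i| *
      ((s : ℝ) / 2 ^ (q * t)) ^ κ ≤ C * (2 * L + 2 * D * M * E) * 2 ^ h := by
  set n := q * t with hn
  have hval : ∀ z : List ℕ × List (ℕ × ℕ), Near U code D A M h Y L q e t z → ∀ i < D,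
      |val z.1 i| ≤ M * 2 ^ (n + h) := by
    intro z hz i hi
    have h1 : (z.1.getD (2 * i) 0 : ℝ) ≤ M * 2 ^ (n + h) := by
      exact_mod_cast hz.1 (2 * i) (by omega)
    have h2 : (z.1.getD (2 * i + 1) 0 : ℝ) ≤ M * 2 ^ (n + h) := by
      exact_mod_cast hz.1 (2 * i + 1) (by omega)
    unfold val
    rw [abs_le]
    have h3 : (0 : ℝ) ≤ (z.1.getD (2 * i) 0 : ℝ) := Nat.cast_nonneg _
    have h4 : (0 : ℝ) ≤ (z.1.getD (2 * i + 1) 0 : ℝ) := Nat.cast_nonneg _
    constructor <;> linarith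
  have hp : (0 : ℝ) < 2 ^ (n + h) := by positivity
  have hrem := hF.rem (fun i => (val z.1 i - val z'.1 i) / 2 ^ (n + h)) (2 ^ n) s
    ((2 * L + 2 * D * M * E) / 2 ^ n) ((z.2.toFinset ∩ z'.2.toFinset).image Prod.fst) (by
      intro j hj
      obtain ⟨x, hx, rfl⟩ := Finset.mem_image.1 hj
      rw [Finset.mem_inter, List.mem_toFinset, List.mem_toFinset] at hx
      rw [Finset.mem_range]
      exact (hz.2.2.2 x hx.1).1) hs (by
      rw [Finset.card_image_of_injOn]
      · exact hcard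
      · intro x hx y hy hxy
        rw [Finset.mem_coe, Finset.mem_inter, List.mem_toFinset] at hx hy
        exact List.inj_on_of_nodup_map hz.2.1 hx.1 hy.1 hxy) (by
      intro j hj
      obtain ⟨x, hx, rfl⟩ := Finset.mem_image.1 hj
      rw [Finset.mem_inter, List.mem_toFinset, List.mem_toFinset] at hx
      have h1 := near_iff.1 (hz.2.2.2 x hx.1).2.2
      have h2 := near_iff.1 (hz'.2.2.2 x hx.2).2.2
      have h3 := (hz.2.2.2 x hx.1).1
      have h4 : |∑ i ∈ Finset.range D, (val z.1 i - val z'.1 i) * A i (n, x.1)| ≤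
          2 * L * 2 ^ (h + 3 * n) := by
        have h5 : ∑ i ∈ Finset.range D, (val z.1 i - val z'.1 i) * A i (n, x.1) =
            (∑ i ∈ Finset.range D, val z.1 i * A i (n, x.1) - x.2 * 2 ^ (h + 3 * n)) -
            (∑ i ∈ Finset.range D, val z'.1 i * A i (n, x.1) - x.2 * 2 ^ (h + 3 * n)) := by
          rw [sub_sub_sub_cancel_right, ← Finset.sum_sub_distrib]
          exact Finset.sum_congr rfl fun i _ => by ring
        rw [h5]
        refine (abs_sub _ _).trans ?_
        linarith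
      push_cast
      have h6 : ∑ i ∈ Finset.range D, (val z.1 i - val z'.1 i) / 2 ^ (n + h) *
          φ i ((x.1 : ℝ) / 2 ^ n) = (∑ i ∈ Finset.range D, (val z.1 i - val z'.1 i) * A i (n, x.1)) /
            (2 ^ (n + h) * 2 ^ (3 * n)) - ∑ i ∈ Finset.range D, (val z.1 i - val z'.1 i) /
              2 ^ (n + h) * ((A i (n, x.1) : ℝ) / 2 ^ (3 * n) - φ i ((x.1 : ℝ) / 2 ^ n)) := by
        rw [Finset.sum_div, ← Finset.sum_sub_distrib]
        refine Finset.sum_congr rfl fun i _ => ?_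
        field_simp
        ring
      rw [h6]
      refine (abs_sub _ _).trans ?_
      rw [add_div]
      refine add_le_add ?_ ?_
      · rw [abs_div, abs_of_pos (by positivity : (0 : ℝ) < 2 ^ (n + h) * 2 ^ (3 * n)),
          div_le_div_iff₀ (by positivity) (by positivity)]
        calc |∑ i ∈ Finset.range D, (val z.1 i - val z'.1 i) * A i (n, x.1)| * 2 ^ n ≤
              2 * L * 2 ^ (h + 3 * n) * 2 ^ n := mul_le_mul_of_nonneg_right h4 (by positivity)
          _ = 2 * L * (2 ^ (n + h) * 2 ^ (3 * n)) := by ring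
      · refine (Finset.abs_sum_le_sum_abs _ _).trans ?_
        have h7 : ∀ i ∈ Finset.range D, |(val z.1 i - val z'.1 i) / 2 ^ (n + h) *
            ((A i (n, x.1) : ℝ) / 2 ^ (3 * n) - φ i ((x.1 : ℝ) / 2 ^ n))| ≤
            2 * M * E / 2 ^ n := by
          intro i hi
          rw [Finset.mem_range] at hi
          rw [abs_mul, abs_div, abs_of_pos hp]
          have h8 : |val z.1 i - val z'.1 i| / 2 ^ (n + h) ≤ 2 * M := by
            rw [div_le_iff₀ hp]
            refine (abs_sub _ _).trans ?_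
            linarith [hval z hz i hi, hval z' hz' i hi]
          have h9 : (E : ℝ) / 2 ^ (3 * n) ≤ E / 2 ^ n := by
            refine div_le_div_of_nonneg_left (Nat.cast_nonneg _) (by positivity) ?_
            exact pow_le_pow_right₀ (by norm_num) (by omega)
          calc _ ≤ 2 * M * (E / 2 ^ n : ℝ) :=
                mul_le_mul h8 ((hF.approx i n x.1 h3).trans h9) (abs_nonneg _) (by positivity)
            _ = _ := by ring
        refine (Finset.sum_le_sum h7).trans ?_
        rw [Finset.sum_const, Finset.card_range, nsmul_eq_mul]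
        apply le_of_eq
        ring)
  push_cast at hrem
  have h10 : ∑ i ∈ Finset.range D, (val z.1 i - val z'.1 i) / 2 ^ (n + h) * c0 i =
      (∑ i ∈ Finset.range D, val z.1 i * c0 i - ∑ i ∈ Finset.range D, val z'.1 i * c0 i) /
        2 ^ (n + h) := by
    rw [← Finset.sum_sub_distrib, Finset.sum_div]
    exact Finset.sum_congr rfl fun i _ => by ring
  rw [h10, abs_div, abs_of_pos hp, div_mul_eq_mul_div, div_le_iff₀ hp] at hrem
  refine hrem.trans (le_of_eq ?_)
  rw [pow_add]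
  field_simp

end Pool.Agent.X234.TD
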