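import Pool.Agent.X234.TD.KC
import Pool.Agent.Helper750.DC.CP

/-!
Effective dimension of points in the plane.
-/

set_option autoImplicit false

namespace Pool.Agent.X234.TD

open scoped ENNReal
open Filter

/-- `M` is a prefix-free machine: partial recursive with prefix-free domain. -/
def PrefixMachine (M : List Bool →. List Bool) : Prop :=
  Partrec M ∧ ∀ p q : List Bool, (M p).Dom → (M q).Dom → p <+: q → p = q

/-- `U` is a universal (optimal) prefix-free machine. -/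
def PrefixUniversal (U : List Bool →. List Bool) : Prop :=
  PrefixMachine U ∧ ∀ M : List Bool →. List Bool, PrefixMachine M →
    ∃ c : ℕ, ∀ p y : List Bool, y ∈ M p → ∃ p' : List Bool, p'.length ≤ p.length + c ∧ y ∈ U p'

/-- The prefix-free complexity `K(w)`, with respect to `U`. -/
noncomputable def K (U : List Bool →. List Bool) (w : List Bool) : ℕ :=
  sInf {n | ∃ p : List Bool, p.length = n ∧ w ∈ U p}

/-- The rational vector `((a - b) / (k + 1), (c - d) / (k + 1))`. -/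
def vec (a b c d k : ℕ) : ℚ × ℚ := (((a : ℚ) - b) / (k + 1), ((c : ℚ) - d) / (k + 1))

/-- A computable coding of the rational vectors by strings: injective, and the code of
`((a - b) / (k + 1), (c - d) / (k + 1))` can be computed from the natural numbers
`a, b, c, d, k`. -/
def IsCoding (code : ℚ × ℚ → List Bool) : Prop :=
  Function.Injective code ∧
    Computable fun x : ℕ × ℕ × ℕ × ℕ × ℕ => code (vec x.1 x.2.1 x.2.2.1 x.2.2.2.1 x.2.2.2.2)

/-- `K_r(z)`: the least complexity of a rational vector at distance less than `2 ^ (-r)` from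
`z`. -/
noncomputable def Kr (U : List Bool →. List Bool) (code : ℚ × ℚ → List Bool) (z : ℝ × ℝ)
    (r : ℕ) : ℕ :=
  sInf {n | ∃ q : ℚ × ℚ, √(((q.1 : ℝ) - z.1) ^ 2 + ((q.2 : ℝ) - z.2) ^ 2) < (1 / 2) ^ r ∧
    n = K U (code q)}

/-- The effective Hausdorff dimension `liminf K_r(z) / r` of the point `z`. -/
noncomputable def dim (U : List Bool →. List Bool) (code : ℚ × ℚ → List Bool) (z : ℝ × ℝ) :
    ℝ≥0∞ :=
  liminf (fun r : ℕ => (Kr U code z r : ℝ≥0∞) / (r : ℝ≥0∞)) atTop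

/-- The trigonometric polynomial `a_0 + ∑_{k=1}^m (a_k cos kx + b_k sin kx)`. -/
noncomputable def trig (m : ℕ) (a b : ℕ → ℝ) (x : ℝ) : ℝ :=
  a 0 + ∑ k ∈ Finset.Icc 1 m, (a k * Real.cos (k * x) + b k * Real.sin (k * x))

theorem exists_vec (x : ℚ × ℚ) : ∃ a b c d k, x = vec a b c d k := by
  obtain ⟨q1, q2⟩ := x
  have h1 : ∀ q : ℚ, ∃ a b : ℕ, q = ((a : ℚ) - b) / q.den := by
    intro q
    refine ⟨q.num.toNat, (-q.num).toNat, ?_⟩
    have h2 : ((q.num.toNat : ℤ) : ℚ) - (((-q.num).toNat : ℤ) : ℚ) = (q.num : ℚ) := by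
      rw [← Int.cast_sub]
      congr 1
      omega
    push_cast at h2 ⊢
    rw [h2, Rat.num_div_den]
  obtain ⟨a, b, hab⟩ := h1 q1
  obtain ⟨c, d, hcd⟩ := h1 q2
  have hd1 : (q1.den : ℚ) ≠ 0 := by exact_mod_cast q1.den_nz
  have hd2 : (q2.den : ℚ) ≠ 0 := by exact_mod_cast q2.den_nz
  refine ⟨a * q2.den, b * q2.den, c * q1.den, d * q1.den, q1.den * q2.den - 1, ?_⟩
  simp only [vec]
  have h3 : ((q1.den * q2.den - 1 : ℕ) : ℚ) + 1 = q1.den * q2.den := by
    have h4 : 1 ≤ q1.den * q2.den := Nat.mul_pos q1.den_pos q2.den_pos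
    rw [Nat.cast_sub h4]
    push_cast
    ring
  rw [h3]
  refine Prod.ext ?_ ?_
  · simp only
    conv_lhs => rw [hab]
    push_cast
    field_simp
  · simp only
    conv_lhs => rw [hcd]
    push_cast
    field_simp

/-- a computable coding exists -/
theorem exists_coding : ∃ code, IsCoding code := by
  classical
  let tup : ℕ → ℕ × ℕ × ℕ × ℕ × ℕ := fun n =>
    (n.unpair.1, n.unpair.2.unpair.1, n.unpair.2.unpair.2.unpair.1,
      n.unpair.2.unpair.2.unpair.2.unpair.1, n.unpair.2.unpair.2.unpair.2.unpair.2)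
  have htup : ∀ x : ℕ × ℕ × ℕ × ℕ × ℕ, ∃ n, tup n = x := by
    rintro ⟨a, b, c, d, k⟩
    exact ⟨Nat.pair a (Nat.pair b (Nat.pair c (Nat.pair d k))), by simp [tup]⟩
  let v : ℕ × ℕ × ℕ × ℕ × ℕ → ℚ × ℚ := fun x => vec x.1 x.2.1 x.2.2.1 x.2.2.2.1 x.2.2.2.2
  have hex : ∀ q : ℚ × ℚ, ∃ n, v (tup n) = q := by
    intro q
    obtain ⟨a, b, c, d, k, rfl⟩ := exists_vec q
    obtain ⟨n, hn⟩ := htup (a, b, c, d, k)
    exact ⟨n, by rw [hn]⟩
  let f : ℚ × ℚ → ℕ := fun q => Nat.find (hex q)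
  have hf : ∀ q, v (tup (f q)) = q := fun q => Nat.find_spec (hex q)
  refine ⟨fun q => List.replicate (f q) false, ?_, ?_⟩
  · intro q q' h
    have h1 : f q = f q' := by
      have := congrArg List.length h
      simpa using this
    rw [← hf q, ← hf q', h1]
  · have heq : ∀ x y : ℕ × ℕ × ℕ × ℕ × ℕ, v x = v y ↔
        (x.1 * (y.2.2.2.2 + 1) + y.2.1 * (x.2.2.2.2 + 1) =
          y.1 * (x.2.2.2.2 + 1) + x.2.1 * (y.2.2.2.2 + 1)) ∧
        (x.2.2.1 * (y.2.2.2.2 + 1) + y.2.2.2.1 * (x.2.2.2.2 + 1) =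
          y.2.2.1 * (x.2.2.2.2 + 1) + x.2.2.2.1 * (y.2.2.2.2 + 1)) := by
      rintro ⟨a, b, c, d, k⟩ ⟨a', b', c', d', k'⟩
      have hk : (k : ℚ) + 1 ≠ 0 := by positivity
      have hk' : (k' : ℚ) + 1 ≠ 0 := by positivity
      simp only [v, vec, Prod.mk.injEq]
      rw [div_eq_div_iff hk hk', div_eq_div_iff hk hk']
      refine and_congr ?_ ?_
      · rw [← Nat.cast_inj (R := ℚ)]
        push_cast
        constructor <;> intro h <;> linarith
      · rw [← Nat.cast_inj (R := ℚ)]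
        push_cast
        constructor <;> intro h <;> linarith
    refine Pool.Agent.Helper446.RE.computable_of_graph ?_
    have htc : Computable tup := by
      have h0 : ∀ g : ℕ → ℕ, Computable g → Computable fun n => (g n).unpair := by
        intro g hg; fun_prop
      fun_prop
    have hcp : ∀ {α : Type} [Primcodable α] {g h : α → ℕ × ℕ × ℕ × ℕ × ℕ}, Computable g →
        Computable h → ComputablePred fun a => v (g a) = v (h a) := by
      intro α _ g h hg hh
      simp only [heq]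
      exact Pool.Agent.Helper750.DC.cp_and
        (Pool.Agent.Helper446.RE.cp_eq (by fun_prop) (by fun_prop))
        (Pool.Agent.Helper446.RE.cp_eq (by fun_prop) (by fun_prop))
    have h1 : REPred fun x : (ℕ × ℕ × ℕ × ℕ × ℕ) × List Bool =>
        (x.2 = (List.range x.2.length).map (fun _ => false)) ∧ v (tup x.2.length) = v x.1 ∧
          ∀ n' < x.2.length, ¬ v (tup n') = v x.1 := by
      refine Pool.Agent.Helper446.RE.and ?_ (Pool.Agent.Helper446.RE.and (hcp (by fun_prop)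
        (by fun_prop)).to_re ?_)
      · refine Pool.Agent.Helper446.RE.eq (by fun_prop) ?_
        exact (Primrec.list_map (Primrec.list_range.comp (Primrec.list_length.comp Primrec.snd))
          (Primrec.const false).to₂).to_comp
      · refine Pool.Agent.Helper446.RE.all_lt (p := fun (x : (ℕ × ℕ × ℕ × ℕ × ℕ) × List Bool) n' =>
          ¬ v (tup n') = v x.1) ?_ (by fun_prop)
        exact (Pool.Agent.Helper750.DC.cp_not (hcp (by fun_prop) (by fun_prop))).to_re
    refine REPred.of_eq h1 fun x => ?_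
    have hrep : ∀ n, (List.range n).map (fun _ => false) = List.replicate n false := by
      intro n
      refine List.ext_getElem (by simp) fun i h1 h2 => by simp
    rw [hrep]
    change _ ↔ List.replicate (f (v x.1)) false = x.2
    constructor
    · rintro ⟨h2, h3, h4⟩
      have h5 : f (v x.1) = x.2.length := by
        apply le_antisymm
        · exact Nat.find_min' (hex _) h3
        · by_contra hlt
          push Not at hlt
          exact h4 _ hlt (hf _)
      rw [h5, ← h2]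
    · intro h2
      have h3 : x.2.length = f (v x.1) := by rw [← h2, List.length_replicate]
      refine ⟨by rw [h3, h2], by rw [h3, hf], fun n' hn' h5 => ?_⟩
      rw [h3] at hn'
      exact Nat.find_min (hex (v x.1)) hn' h5

variable {U : List Bool →. List Bool} {code : ℚ × ℚ → List Bool} {z : ℝ × ℝ}

theorem Kr_spec (U : List Bool →. List Bool) (code : ℚ × ℚ → List Bool) (z : ℝ × ℝ) (r : ℕ) :
    ∃ q : ℚ × ℚ, √(((q.1 : ℝ) - z.1) ^ 2 + ((q.2 : ℝ) - z.2) ^ 2) < (1 / 2) ^ r ∧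
      Kr U code z r = K U (code q) := by
  have hne : {n | ∃ q : ℚ × ℚ, √(((q.1 : ℝ) - z.1) ^ 2 + ((q.2 : ℝ) - z.2) ^ 2) < (1 / 2) ^ r ∧
      n = K U (code q)}.Nonempty := by
    have h0 : (0 : ℝ) < (1 / 2) ^ r / 2 := by positivity
    obtain ⟨q1, h1, h1'⟩ := exists_rat_btwn (show z.1 < z.1 + (1 / 2) ^ r / 2 by linarith)
    obtain ⟨q2, h2, h2'⟩ := exists_rat_btwn (show z.2 < z.2 + (1 / 2) ^ r / 2 by linarith)
    refine ⟨_, (q1, q2), ?_, rfl⟩
    rw [Real.sqrt_lt' (by positivity)]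
    have h3 : ((q1 : ℝ) - z.1) ^ 2 ≤ ((1 / 2) ^ r / 2) ^ 2 := by
      apply pow_le_pow_left₀ <;> linarith
    have h4 : ((q2 : ℝ) - z.2) ^ 2 ≤ ((1 / 2) ^ r / 2) ^ 2 := by
      apply pow_le_pow_left₀ <;> linarith
    have h5 : (0 : ℝ) < ((1 / 2) ^ r / 2) ^ 2 := by positivity
    simp only
    nlinarith
  exact Nat.sInf_mem hne

theorem Kr_le {q : ℚ × ℚ} {r : ℕ}
    (h : √(((q.1 : ℝ) - z.1) ^ 2 + ((q.2 : ℝ) - z.2) ^ 2) < (1 / 2) ^ r) :
    Kr U code z r ≤ K U (code q) := Nat.sInf_le ⟨q, h, rfl⟩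

theorem Kr_mono {r s : ℕ} (h : r ≤ s) : Kr U code z r ≤ Kr U code z s := by
  obtain ⟨q, h1, h2⟩ := Kr_spec U code z s
  rw [h2]
  refine Kr_le (h1.trans_le ?_)
  exact pow_le_pow_of_le_one (by norm_num) (by norm_num) h

/-- lower bound for the dimension -/
theorem le_dim {q e T : ℕ} (hq : 0 < q) (h : ∀ t, T ≤ t → e * t ≤ Kr U code z (q * t)) :
    (e : ℝ≥0∞) / q ≤ dim U code z := by
  refine le_of_forall_lt fun c hc => ?_
  obtain ⟨c', hc1, hc2⟩ := exists_between hc
  refine lt_of_lt_of_le hc1 ?_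
  refine le_liminf_of_le (by isBoundedDefault) ?_
  have hc3 : c' ≠ ∞ := ne_top_of_lt hc2
  lift c' to NNReal using hc3
  have hq0 : (0 : ℝ) < q := by exact_mod_cast hq
  have h1 : (c' : ℝ) < (e : ℝ) / q := by
    have h2 : (e : ℝ≥0∞) / q = (((e : NNReal) / (q : NNReal) : NNReal) : ℝ≥0∞) := by
      rw [ENNReal.coe_div (by exact_mod_cast hq.ne')]
      simp
    rw [h2, ENNReal.coe_lt_coe] at hc2
    exact_mod_cast hc2
  obtain ⟨R, hR⟩ := exists_nat_gt ((e : ℝ) / ((e : ℝ) / q - c'))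
  filter_upwards [eventually_ge_atTop (q * T + R + 1)] with r hr
  have hr0 : (r : ℝ≥0∞) ≠ 0 := by
    simp only [ne_eq, Nat.cast_eq_zero]
    omega
  rw [ENNReal.le_div_iff_mul_le (Or.inl hr0) (Or.inl (ENNReal.natCast_ne_top r))]
  have h3 : (c' : ℝ≥0∞) * (r : ℝ≥0∞) = ((c' * (r : NNReal) : NNReal) : ℝ≥0∞) := by simp
  have h4 : (Kr U code z r : ℝ≥0∞) = (((Kr U code z r : ℕ) : NNReal) : ℝ≥0∞) := by simp
  rw [h3, h4, ENNReal.coe_le_coe, ← NNReal.coe_le_coe]
  push_cast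
  have hT : T ≤ r / q := by
    rw [Nat.le_div_iff_mul_le hq, mul_comm]
    omega
  have h5 := h (r / q) hT
  have h6 : Kr U code z (q * (r / q)) ≤ Kr U code z r := Kr_mono (Nat.mul_div_le r q)
  have h7 : r < q * (r / q + 1) := by
    have := Nat.lt_mul_div_succ r hq
    exact this
  have h8 : ((e * (r / q) : ℕ) : ℝ) ≤ Kr U code z r := by exact_mod_cast h5.trans h6
  have h9 : (r : ℝ) < q * ((r / q : ℕ) + 1) := by exact_mod_cast h7
  refine le_trans ?_ h8
  rw [div_lt_iff₀ (by linarith)] at hR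
  have h10 : (R : ℝ) ≤ r := by exact_mod_cast (by omega : R ≤ r)
  have h11 : (e : ℝ) / q * r ≤ e * ((r / q : ℕ) + 1) := by
    rw [div_mul_eq_mul_div, div_le_iff₀ hq0]
    nlinarith [h9, (Nat.cast_nonneg e : (0 : ℝ) ≤ e)]
  have h12 : (e : ℝ) < r * ((e : ℝ) / q - c') := by nlinarith
  push_cast
  nlinarith

/-- upper bound for the dimension -/
theorem dim_le {q d c : ℕ} (hq : 0 < q)
    (h : ∃ᶠ t : ℕ in atTop, Kr U code z (q * t) ≤ d * t + c) :
    dim U code z ≤ (d : ℝ≥0∞) / q := by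
  refine le_of_forall_gt fun b hb => ?_
  obtain ⟨b', hb1, hb2⟩ := exists_between hb
  refine lt_of_le_of_lt ?_ hb2
  by_cases hbt : b' = ∞
  · rw [hbt]; exact le_top
  lift b' to NNReal using hbt
  have hq0 : (0 : ℝ) < q := by exact_mod_cast hq
  have h1 : (d : ℝ) / q < (b' : ℝ) := by
    have h2 : (d : ℝ≥0∞) / q = (((d : NNReal) / (q : NNReal) : NNReal) : ℝ≥0∞) := by
      rw [ENNReal.coe_div (by exact_mod_cast hq.ne')]
      simp
    rw [h2, ENNReal.coe_lt_coe] at hb1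
    exact_mod_cast hb1
  refine liminf_le_of_frequently_le ?_ (by isBoundedDefault)
  obtain ⟨R, hR⟩ := exists_nat_gt ((c : ℝ) / (b' * q - d))
  have h2 : ∃ᶠ t : ℕ in atTop, Kr U code z (q * t) ≤ d * t + c ∧ R + 1 ≤ t :=
    h.and_eventually (eventually_ge_atTop (R + 1))
  have ht : Tendsto (fun t : ℕ => q * t) atTop atTop :=
    tendsto_id.const_mul_atTop' hq
  refine ht.frequently ?_
  refine h2.mono fun t ht => ?_
  obtain ⟨h3, h4⟩ := ht
  have h5 : ((q * t : ℕ) : ℝ≥0∞) ≠ 0 := by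
    simp only [ne_eq, Nat.cast_eq_zero, Nat.mul_eq_zero]
    omega
  rw [ENNReal.div_le_iff_le_mul (Or.inl h5) (Or.inl (ENNReal.natCast_ne_top _))]
  have h6 : (b' : ℝ≥0∞) * ((q * t : ℕ) : ℝ≥0∞) = ((b' * ((q * t : ℕ) : NNReal) : NNReal) : ℝ≥0∞) := by
    push_cast; rfl
  have h7 : (Kr U code z (q * t) : ℝ≥0∞) = (((Kr U code z (q * t) : ℕ) : NNReal) : ℝ≥0∞) := by simp
  rw [h6, h7, ENNReal.coe_le_coe, ← NNReal.coe_le_coe]
  push_cast
  have h8 : ((Kr U code z (q * t) : ℕ) : ℝ) ≤ d * t + c := by exact_mod_cast h3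
  refine h8.trans ?_
  have h9 : 0 < (b' : ℝ) * q - d := by
    rw [div_lt_iff₀ hq0] at h1
    linarith
  rw [div_lt_iff₀ h9] at hR
  have h10 : (R : ℝ) ≤ t := by exact_mod_cast (by omega : R ≤ t)
  nlinarith

end Pool.Agent.X234.TD
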