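import Pool.Agent.X234.TD.Sel

/-!
Families of functions with computable approximations; counting.
-/

set_option autoImplicit false

namespace Pool.Agent.X234.TD

open scoped ENNReal
open Filter MeasureTheory Pool.Agent.Helper227 Finset

/-- sets with small pairwise intersections -/
theorem comb {ι β : Type} [DecidableEq β] [DecidableEq ι] (T : Finset ι) (E : ι → Finset β)
    (a b : ℕ) (ha : ∀ w ∈ T, a ≤ (E w).card)
    (hb : ∀ w ∈ T, ∀ w' ∈ T, w ≠ w' → (E w ∩ E w').card ≤ b) :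
    T.card * a ≤ (T.biUnion E).card + T.card ^ 2 * b := by
  set V := T.biUnion E with hV
  let k : β → ℕ := fun v => ∑ w ∈ T, if v ∈ E w then 1 else 0
  have hsub : ∀ w ∈ T, E w ⊆ V := fun w hw => Finset.subset_biUnion_of_mem E hw
  have h1 : ∑ v ∈ V, k v = ∑ w ∈ T, (E w).card := by
    rw [Finset.sum_comm]
    refine Finset.sum_congr rfl fun w hw => ?_
    rw [Finset.sum_ite_mem, Finset.inter_eq_right.2 (hsub w hw), Finset.card_eq_sum_ones]
  have h2 : ∑ v ∈ V, k v * k v = ∑ w ∈ T, ∑ w' ∈ T, (E w ∩ E w').card := by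
    have h3 : ∀ v, k v * k v = ∑ w ∈ T, ∑ w' ∈ T, if v ∈ E w ∩ E w' then 1 else 0 := by
      intro v
      simp only [k]
      rw [Finset.sum_mul_sum]
      refine Finset.sum_congr rfl fun w _ => Finset.sum_congr rfl fun w' _ => ?_
      by_cases h : v ∈ E w <;> by_cases h' : v ∈ E w' <;> simp [h, h']
    simp only [h3]
    rw [Finset.sum_comm]
    refine Finset.sum_congr rfl fun w hw => ?_
    rw [Finset.sum_comm]
    refine Finset.sum_congr rfl fun w' _ => ?_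
    rw [Finset.sum_ite_mem, Finset.inter_eq_right.2 (Finset.inter_subset_left.trans (hsub w hw)),
      Finset.card_eq_sum_ones]
  have h4 : ∑ w ∈ T, ∑ w' ∈ T, (E w ∩ E w').card ≤ ∑ w ∈ T, (E w).card + T.card ^ 2 * b := by
    have h5 : ∀ w ∈ T, ∑ w' ∈ T, (E w ∩ E w').card ≤ (E w).card + T.card * b := by
      intro w hw
      rw [← Finset.add_sum_erase T _ hw, Finset.inter_self]
      refine Nat.add_le_add_left ?_ _
      calc ∑ w' ∈ T.erase w, (E w ∩ E w').card ≤ ∑ _w' ∈ T.erase w, b :=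
            Finset.sum_le_sum fun w' hw' => hb w hw w' (Finset.mem_of_mem_erase hw')
              (Finset.ne_of_mem_erase hw').symm
        _ = (T.erase w).card * b := by rw [Finset.sum_const, smul_eq_mul]
        _ ≤ T.card * b := Nat.mul_le_mul_right _ (Finset.card_le_card (Finset.erase_subset _ _))
    refine (Finset.sum_le_sum h5).trans ?_
    rw [Finset.sum_add_distrib, Finset.sum_const, smul_eq_mul, pow_two, mul_assoc]
  have h6 : ∑ v ∈ V, (2 * k v) ≤ ∑ v ∈ V, (1 + k v * k v) := by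
    refine Finset.sum_le_sum fun v _ => ?_
    zify
    nlinarith [sq_nonneg ((k v : ℤ) - 1)]
  rw [← Finset.mul_sum, Finset.sum_add_distrib, ← Finset.card_eq_sum_ones, h1, h2] at h6
  have h7 : T.card * a ≤ ∑ w ∈ T, (E w).card := by
    rw [← smul_eq_mul, ← Finset.sum_const]
    exact Finset.sum_le_sum ha
  omega

/-- a family of functions on the unit interval, with computable approximations, which are
determined by their values at sufficiently many separated points -/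
structure Fam (D : ℕ) (φ : ℕ → ℝ → ℝ) (A : ℕ → ℕ × ℕ → ℕ) (c0 : ℕ → ℕ) (E C κ : ℕ) : Prop where
  comp : ∀ i, Computable (A i)
  approx : ∀ i, ∀ n j : ℕ, j < 2 ^ n → |(A i (n, j) : ℝ) / 2 ^ (3 * n) - φ i (j / 2 ^ n)| ≤
    E / 2 ^ (3 * n)
  zero : ∀ i, φ i 0 = c0 i
  c0_le : ∀ i, c0 i ≤ 2
  le : ∀ i x, |φ i x| ≤ 2
  rem : ∀ (v : ℕ → ℝ) (N s : ℕ) (ε : ℝ) (J : Finset ℕ), J ⊆ Finset.range N → 0 < s →
    D * s ≤ J.card → (∀ j ∈ J, |∑ i ∈ Finset.range D, v i * φ i ((j : ℝ) / N)| ≤ ε) →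
    |∑ i ∈ Finset.range D, v i * c0 i| * ((s : ℝ) / N) ^ κ ≤ C * ε

/-- linear form in the coefficients -/
def lin (D : ℕ) (c : ℕ → ℕ) (b : ℕ) (u : List ℕ) : ℕ :=
  ∑ i ∈ Finset.range D, u.getD (2 * i + b) 0 * c i

/-- coefficient -/
def val (u : List ℕ) (i : ℕ) : ℝ := (u.getD (2 * i) 0 : ℝ) - u.getD (2 * i + 1) 0

theorem lin_sub (D : ℕ) (c : ℕ → ℕ) (u : List ℕ) :
    (lin D c 0 u : ℝ) - lin D c 1 u = ∑ i ∈ Finset.range D, val u i * c i := by
  unfold lin val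
  push_cast
  rw [← Finset.sum_sub_distrib]
  refine Finset.sum_congr rfl fun i _ => ?_
  rw [add_zero]
  ring

variable {U : List Bool →. List Bool} {code : ℚ × ℚ → List Bool}

/-- a curve which passes near many points of low complexity -/
def Near (U : List Bool →. List Bool) (code : ℚ × ℚ → List Bool) (D : ℕ) (A : ℕ → ℕ × ℕ → ℕ)
    (M h Y L q e t : ℕ) (z : List ℕ × List (ℕ × ℕ)) : Prop :=
  (∀ i < 2 * D, z.1.getD i 0 ≤ M * 2 ^ (q * t + h)) ∧ (z.2.map Prod.fst).Nodup ∧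
    2 ^ (q * t) ≤ z.2.length * 2 ^ t ∧ ∀ x ∈ z.2, x.1 < 2 ^ (q * t) ∧
      PP U code q e Y t x.1 x.2 ∧
      lin D (fun i => A i (q * t, x.1)) 0 z.1 ≤ lin D (fun i => A i (q * t, x.1)) 1 z.1 +
        (x.2 + L) * 2 ^ (h + 3 * (q * t)) ∧
      lin D (fun i => A i (q * t, x.1)) 1 z.1 + x.2 * 2 ^ (h + 3 * (q * t)) ≤
        lin D (fun i => A i (q * t, x.1)) 0 z.1 + L * 2 ^ (h + 3 * (q * t))

/-- the output -/
def out (code : ℚ × ℚ → List Bool) (D : ℕ) (c0 : ℕ → ℕ) (h Y q t : ℕ) (u : List ℕ) :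
    List Bool :=
  code (vec 0 0 (lin D c0 0 u) (lin D c0 1 u + Y * 2 ^ (q * t + h)) (2 ^ (q * t + h) - 1))

theorem near_iff {D : ℕ} {A : ℕ → ℕ × ℕ → ℕ} {h L n j y : ℕ} {u : List ℕ} :
    (lin D (fun i => A i (n, j)) 0 u ≤ lin D (fun i => A i (n, j)) 1 u +
        (y + L) * 2 ^ (h + 3 * n) ∧
      lin D (fun i => A i (n, j)) 1 u + y * 2 ^ (h + 3 * n) ≤
        lin D (fun i => A i (n, j)) 0 u + L * 2 ^ (h + 3 * n)) ↔
      |∑ i ∈ Finset.range D, val u i * A i (n, j) - y * 2 ^ (h + 3 * n)| ≤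
        L * 2 ^ (h + 3 * n) := by
  rw [← lin_sub D (fun i => A i (n, j)) u, abs_le, ← Nat.cast_le (α := ℝ), ← Nat.cast_le (α := ℝ)]
  push_cast
  constructor
  · rintro ⟨h1, h2⟩; exact ⟨by linarith, by linarith⟩
  · rintro ⟨h1, h2⟩; exact ⟨by linarith, by linarith⟩

end Pool.Agent.X234.TD
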