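import Pool.Agent.X234.TD.Two

/-!
Trigonometric polynomials are determined by their values at separated points.
-/

set_option autoImplicit false

namespace Pool.Agent.X234.TD

open Finset Polynomial

/-- separated points in a set -/
theorem separated (s : ℕ) (hs : 0 < s) : ∀ (D : ℕ) (J : Finset ℕ), D * s ≤ J.card →
    ∃ p : ℕ → ℕ, (∀ i < D, p i ∈ J) ∧ ∀ i i', i < i' → i' < D → p i + s ≤ p i' := by
  intro D
  induction D with
  | zero => intro J _; exact ⟨fun _ => 0, by omega, by omega⟩
  | succ D ih =>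
    intro J hJ
    have hne : J.Nonempty := by
      rw [← Finset.card_pos]
      have : 0 < (D + 1) * s := by positivity
      omega
    set M := J.max' hne with hM
    have h1 : (J \ J.filter (fun j => j + s ≤ M)) ⊆ Finset.Ioc (M - s) M ∪
        (if s ≤ M then ∅ else {0}) := by
      intro j hj
      rw [Finset.mem_sdiff, Finset.mem_filter] at hj
      have h2 : j ≤ M := J.le_max' j hj.1
      have h3 : ¬ j + s ≤ M := fun h => hj.2 ⟨hj.1, h⟩
      rw [Finset.mem_union, Finset.mem_Ioc]
      split_ifs with h4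
      · left; omega
      · by_cases h5 : j = 0
        · right; simp [h5]
        · left; omega
    have h2 : (Finset.Ioc (M - s) M ∪ (if s ≤ M then ∅ else {0})).card ≤ s := by
      refine (Finset.card_union_le _ _).trans ?_
      rw [Nat.card_Ioc]
      split_ifs with h4
      · simp only [Finset.card_empty]; omega
      · simp only [Finset.card_singleton]; omega
    have h3 := (Finset.card_le_card h1).trans h2
    rw [Finset.card_sdiff_of_subset (Finset.filter_subset _ _)] at h3
    have h4 : D * s ≤ (J.filter (fun j => j + s ≤ M)).card := by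
      have : (D + 1) * s = D * s + s := by ring
      omega
    obtain ⟨p, hp1, hp2⟩ := ih _ h4
    refine ⟨fun i => if i < D then p i else M, ?_, ?_⟩
    · intro i hi
      simp only
      split_ifs with h
      · exact (Finset.mem_filter.1 (hp1 i h)).1
      · exact J.max'_mem hne
    · intro i i' h h'
      simp only
      rw [if_pos (by omega : i < D)]
      split_ifs with h5
      · exact hp2 i i' h h5
      · exact (Finset.mem_filter.1 (hp1 i (by omega))).2

theorem norm_exp_sub {x y d : ℝ} (hd : d ≤ |x - y|) (h : |x - y| ≤ 1) :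
    d / 2 ≤ ‖Complex.exp (Complex.I * x) - Complex.exp (Complex.I * y)‖ := by
  have h1 : Complex.exp (Complex.I * x) - Complex.exp (Complex.I * y) =
      Complex.exp (Complex.I * y) * (Complex.exp (Complex.I * ((x - y : ℝ) : ℂ)) - 1) := by
    rw [mul_sub, ← Complex.exp_add, mul_one]
    congr 2
    push_cast
    ring
  rw [h1, norm_mul, Complex.norm_exp_I_mul_ofReal, one_mul, Complex.norm_exp_I_mul_ofReal_sub_one,
    Real.norm_eq_abs, abs_mul, abs_of_pos (by norm_num : (0 : ℝ) < 2)]
  have h2 : |Real.sin ((x - y) / 2)| = Real.sin (|x - y| / 2) := by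
    rcases le_total 0 (x - y) with h3 | h3
    · rw [abs_of_nonneg h3] at h ⊢
      rw [abs_of_nonneg]
      exact Real.sin_nonneg_of_nonneg_of_le_pi (by linarith) (by linarith [Real.pi_gt_three])
    · rw [abs_of_nonpos h3] at h ⊢
      rw [abs_of_nonpos]
      · rw [neg_div, Real.sin_neg]
      · exact Real.sin_nonpos_of_nonpos_of_neg_pi_le (by linarith) (by linarith [Real.pi_gt_three])
  rw [h2]
  have h3 := Real.mul_le_sin (x := |x - y| / 2) (by positivity) (by linarith [Real.pi_gt_three])
  have h4 : (1 : ℝ) / 2 ≤ 2 / Real.pi := by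
    rw [div_le_div_iff₀ (by norm_num) Real.pi_pos]
    linarith [Real.pi_le_four]
  have h5 : (1 : ℝ) / 2 * (|x - y| / 2) ≤ 2 / Real.pi * (|x - y| / 2) :=
    mul_le_mul_of_nonneg_right h4 (by positivity)
  linarith

/-- Lagrange interpolation -/
theorem lagrange (P : ℂ[X]) (n : ℕ) (hP : P.degree < ((n + 1 : ℕ) : WithBot ℕ)) (z : ℕ → ℂ)
    (hz : ∀ i, ‖z i‖ = 1) {η ε : ℝ} (hη : 0 < η)
    (hsep : ∀ i ∈ Finset.range (n + 1), ∀ j ∈ Finset.range (n + 1), i ≠ j → η ≤ ‖z i - z j‖)
    (hε : ∀ i ∈ Finset.range (n + 1), ‖P.eval (z i)‖ ≤ ε) :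
    ‖P.eval 1‖ * η ^ n ≤ (n + 1) * 2 ^ n * ε := by
  have hinj : Set.InjOn z (Finset.range (n + 1) : Finset ℕ) := by
    intro i hi j hj hij
    by_contra hne
    have := hsep i hi j hj hne
    rw [hij, sub_self, norm_zero] at this
    linarith
  have h1 := Lagrange.eq_interpolate (s := Finset.range (n + 1)) (v := z) (f := P) hinj
    (by rw [Finset.card_range]; exact hP)
  have h2 : P.eval 1 = ∑ i ∈ Finset.range (n + 1), P.eval (z i) *
      ∏ j ∈ (Finset.range (n + 1)).erase i, ((z i - z j)⁻¹ * (1 - z j)) := by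
    conv_lhs => rw [h1]
    rw [Lagrange.interpolate_apply, eval_finsetSum]
    refine Finset.sum_congr rfl fun i _ => ?_
    rw [eval_mul, eval_C, Lagrange.basis, eval_prod]
    congr 1
    refine Finset.prod_congr rfl fun j _ => ?_
    simp [Lagrange.basisDivisor]
  have h3 : ∀ i ∈ Finset.range (n + 1), ‖P.eval (z i) *
      ∏ j ∈ (Finset.range (n + 1)).erase i, ((z i - z j)⁻¹ * (1 - z j))‖ ≤ ε * (2 / η) ^ n := by
    intro i hi
    rw [norm_mul]
    have hε0 : 0 ≤ ε := (norm_nonneg _).trans (hε i hi)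
    refine mul_le_mul (hε i hi) ?_ (norm_nonneg _) hε0
    rw [norm_prod]
    have h4 : ((Finset.range (n + 1)).erase i).card = n := by
      rw [Finset.card_erase_of_mem hi, Finset.card_range]; omega
    calc _ ≤ ∏ _j ∈ (Finset.range (n + 1)).erase i, (2 / η) := by
          refine Finset.prod_le_prod (fun _ _ => norm_nonneg _) fun j hj => ?_
          rw [norm_mul, norm_inv, div_eq_inv_mul]
          have h5 := hsep i hi j (Finset.mem_of_mem_erase hj) (Finset.ne_of_mem_erase hj).symm
          refine mul_le_mul (inv_anti₀ hη h5) ?_ (norm_nonneg _) (by positivity)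
          calc ‖(1 : ℂ) - z j‖ ≤ ‖(1 : ℂ)‖ + ‖z j‖ := norm_sub_le _ _
            _ = 2 := by rw [hz, norm_one]; norm_num
      _ = (2 / η) ^ n := by rw [Finset.prod_const, h4]
  have h4 : ‖P.eval 1‖ ≤ (n + 1) * (ε * (2 / η) ^ n) := by
    rw [h2]
    refine (norm_sum_le _ _).trans ((Finset.sum_le_sum h3).trans (le_of_eq ?_))
    rw [Finset.sum_const, Finset.card_range, nsmul_eq_mul]
    push_cast
    ring
  calc ‖P.eval 1‖ * η ^ n ≤ (n + 1) * (ε * (2 / η) ^ n) * η ^ n :=
        mul_le_mul_of_nonneg_right h4 (by positivity)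
    _ = (n + 1) * 2 ^ n * ε := by
        rw [div_pow]
        field_simp

end Pool.Agent.X234.TD
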