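import Pool.Agent.X234.TD.Defs

/-!
Selecting a point of high dimension; counting the squares of low complexity.
-/

set_option autoImplicit false

namespace Pool.Agent.X234.TD

open scoped ENNReal
open Filter MeasureTheory Pool.Agent.Helper227

variable {U : List Bool →. List Bool} {code : ℚ × ℚ → List Bool}

open Classical in
/-- the cells in which the graph of `f` has points of low complexity -/
noncomputable def JJ (U : List Bool →. List Bool) (code : ℚ × ℚ → List Bool) (f : ℝ → ℝ)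
    (q e t : ℕ) : Finset ℕ :=
  (Finset.range (2 ^ (q * t))).filter fun j => ∃ x : ℝ, (j : ℝ) / 2 ^ (q * t) ≤ x ∧
    x < ((j : ℝ) + 1) / 2 ^ (q * t) ∧ Kr U code (x, f x) (q * t) < e * t

/-- selection of a point -/
theorem select (f : ℝ → ℝ) (q e T : ℕ)
    (h : ∀ t, T ≤ t → (JJ U code f q e t).card * 2 ^ t ≤ 2 ^ (q * t)) :
    ∃ x : ℝ, 0 ≤ x ∧ x < 1 ∧ ∀ t, T + 2 ≤ t → e * t ≤ Kr U code (x, f x) (q * t) := by
  let B : ℕ → Set ℝ := fun i => ⋃ j ∈ JJ U code f q e (T + 2 + i),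
    Set.Ico ((j : ℝ) / 2 ^ (q * (T + 2 + i))) (((j : ℝ) + 1) / 2 ^ (q * (T + 2 + i)))
  have h1 : ∀ i, volume (B i) ≤ (2⁻¹ : ℝ≥0∞) ^ (i + 2) := by
    intro i
    set t := T + 2 + i with ht
    refine (measure_biUnion_finset_le _ _).trans ?_
    have h2 : ∀ j ∈ JJ U code f q e t, volume (Set.Ico ((j : ℝ) / 2 ^ (q * t))
        (((j : ℝ) + 1) / 2 ^ (q * t))) = (2⁻¹ : ℝ≥0∞) ^ (q * t) := by
      intro j _
      rw [Real.volume_Ico, ← sub_div, add_sub_cancel_left, one_div,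
        ENNReal.ofReal_inv_of_pos (by positivity), ENNReal.ofReal_pow (by norm_num),
        ENNReal.inv_pow]
      norm_num
    rw [Finset.sum_congr rfl h2, Finset.sum_const, nsmul_eq_mul]
    have h3 := h t (by omega)
    have h4 : ((JJ U code f q e t).card : ℝ≥0∞) * 2 ^ t ≤ 2 ^ (q * t) := by exact_mod_cast h3
    have h5 : ((JJ U code f q e t).card : ℝ≥0∞) ≤ 2 ^ (q * t) * (2⁻¹) ^ t := by
      have h6 : (2 : ℝ≥0∞) ^ t * 2⁻¹ ^ t = 1 := by
        rw [← mul_pow, ENNReal.mul_inv_cancel (by norm_num) (by norm_num), one_pow]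
      calc ((JJ U code f q e t).card : ℝ≥0∞) = (JJ U code f q e t).card * 2 ^ t * 2⁻¹ ^ t := by
            rw [mul_assoc, h6, mul_one]
        _ ≤ _ := by gcongr
    have h7 : (2 : ℝ≥0∞) ^ (q * t) * 2⁻¹ ^ (q * t) = 1 := by
      rw [← mul_pow, ENNReal.mul_inv_cancel (by norm_num) (by norm_num), one_pow]
    calc ((JJ U code f q e t).card : ℝ≥0∞) * 2⁻¹ ^ (q * t)
        ≤ 2 ^ (q * t) * (2⁻¹) ^ t * 2⁻¹ ^ (q * t) := by gcongr
      _ = (2 ^ (q * t) * 2⁻¹ ^ (q * t)) * (2⁻¹) ^ t := by ring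
      _ = (2⁻¹) ^ t := by rw [h7, one_mul]
      _ ≤ (2⁻¹ : ℝ≥0∞) ^ (i + 2) := by
          apply pow_le_pow_right_of_le_one' (by norm_num)
          omega
  have h2 : volume (⋃ i, B i) < volume (Set.Ico (0 : ℝ) 1) := by
    refine (measure_iUnion_le _).trans_lt ?_
    refine (ENNReal.tsum_le_tsum h1).trans_lt ?_
    rw [Real.volume_Ico]
    have h3 : ∀ i : ℕ, (2⁻¹ : ℝ≥0∞) ^ (i + 2) = (2⁻¹ : ℝ≥0∞) ^ i * 2⁻¹ ^ 2 := fun i => pow_add _ _ _
    rw [tsum_congr h3]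
    rw [ENNReal.tsum_mul_right, ENNReal.tsum_geometric, ENNReal.one_sub_inv_two, inv_inv, pow_two,
      ← mul_assoc, ENNReal.mul_inv_cancel (by norm_num) (by norm_num), one_mul, sub_zero,
      ENNReal.ofReal_one]
    exact ENNReal.inv_lt_one.2 (by norm_num)
  obtain ⟨x, hx, hx2⟩ : ∃ x ∈ Set.Ico (0 : ℝ) 1, x ∉ ⋃ i, B i := by
    by_contra hcon
    push Not at hcon
    exact absurd (measure_mono (μ := volume) hcon) (not_le.2 h2)
  refine ⟨x, hx.1, hx.2, fun t ht => ?_⟩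
  by_contra hlt
  push Not at hlt
  apply hx2
  rw [Set.mem_iUnion]
  refine ⟨t - (T + 2), ?_⟩
  have ht2 : T + 2 + (t - (T + 2)) = t := by omega
  simp only [B]
  rw [ht2, Set.mem_iUnion₂]
  have h0 : (0 : ℝ) < 2 ^ (q * t) := by positivity
  have hx0 : 0 ≤ x * 2 ^ (q * t) := mul_nonneg hx.1 h0.le
  have hf1 := Nat.floor_le hx0
  have hf2 := Nat.lt_floor_add_one (x * 2 ^ (q * t))
  refine ⟨⌊x * 2 ^ (q * t)⌋₊, ?_, ?_, ?_⟩
  · classical
    unfold JJ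
    rw [Finset.mem_filter, Finset.mem_range]
    refine ⟨?_, x, ?_, ?_, hlt⟩
    · rw [Nat.floor_lt hx0]
      push_cast
      nlinarith [hx.2]
    · rw [div_le_iff₀ h0]; exact hf1
    · rw [lt_div_iff₀ h0]; exact hf2
  · rw [div_le_iff₀ h0]; exact hf1
  · rw [lt_div_iff₀ h0]; exact hf2

/-- `(j, y)` is close to a rational vector of low complexity -/
def PP (U : List Bool →. List Bool) (code : ℚ × ℚ → List Bool) (q e Y t j y : ℕ) : Prop :=
  ∃ x : ℚ × ℚ, K U (code x) < e * t ∧ |x.1 * 2 ^ (q * t) - j| ≤ 2 ∧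
    |(x.2 + Y) * 2 ^ (q * t) - y| ≤ 1

theorem K_lt {n : ℕ} {w : List Bool} (hU : IsUniversal U) :
    K U w < n ↔ ∃ p : List Bool, p.length < n ∧ w ∈ U p := by
  constructor
  · intro h
    obtain ⟨p, h1, h2⟩ := hU.exists_min w
    exact ⟨p, by rw [h1]; exact h, h2⟩
  · rintro ⟨p, h1, h2⟩
    exact (KU_le h2).trans_lt h1

theorem card_PP (hU : IsUniversal U) (hc : IsCoding code) (q e Y t : ℕ) (T : Finset (ℕ × ℕ))
    (hT : ∀ x ∈ T, PP U code q e Y t x.1 x.2) : T.card ≤ 15 * 2 ^ (e * t) := by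
  classical
  choose! x hx1 hx2 hx3 using hT
  have h1 := card_KU hU (e * t) (T.image fun a => code (x a)) (by
    intro w hw
    obtain ⟨a, ha, rfl⟩ := Finset.mem_image.1 hw
    exact hx1 a ha)
  have h2 : T.card ≤ ((T.image fun a => code (x a)) ×ˢ (Finset.range 5 ×ˢ Finset.range 3)).card := by
    refine Finset.card_le_card_of_injOn (fun a => (code (x a), a.1 % 5, a.2 % 3)) ?_ ?_
    · intro a ha
      rw [Finset.mem_coe, Finset.mem_product, Finset.mem_product, Finset.mem_range,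
        Finset.mem_range]
      exact ⟨Finset.mem_image_of_mem _ ha, Nat.mod_lt _ (by norm_num), Nat.mod_lt _ (by norm_num)⟩
    · intro a ha b hb hab
      simp only [Prod.mk.injEq] at hab
      obtain ⟨h3, h4, h5⟩ := hab
      have h6 : x a = x b := hc.1 h3
      have ha2 := abs_le.1 (hx2 a ha)
      have hb2 := abs_le.1 (hx2 b hb)
      have ha3 := abs_le.1 (hx3 a ha)
      have hb3 := abs_le.1 (hx3 b hb)
      rw [h6] at ha2 ha3
      have e1 : (a.1 : ℚ) ≤ b.1 + 4 := by linarith [ha2.1, hb2.2]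
      have e2 : (b.1 : ℚ) ≤ a.1 + 4 := by linarith [ha2.2, hb2.1]
      have e3 : (a.2 : ℚ) ≤ b.2 + 2 := by linarith [ha3.1, hb3.2]
      have e4 : (b.2 : ℚ) ≤ a.2 + 2 := by linarith [ha3.2, hb3.1]
      have e1' : a.1 ≤ b.1 + 4 := by exact_mod_cast e1
      have e2' : b.1 ≤ a.1 + 4 := by exact_mod_cast e2
      have e3' : a.2 ≤ b.2 + 2 := by exact_mod_cast e3
      have e4' : b.2 ≤ a.2 + 2 := by exact_mod_cast e4
      exact Prod.ext (by omega) (by omega)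
  rw [Finset.card_product, Finset.card_product, Finset.card_range, Finset.card_range] at h2
  calc T.card ≤ _ := h2
    _ ≤ 2 ^ (e * t) * (5 * 3) := Nat.mul_le_mul_right _ h1
    _ = _ := by ring

theorem PP_re (hU : IsUniversal U) (hc : IsCoding code) (q e Y : ℕ) :
    REPred fun x : ℕ × ℕ × ℕ => PP U code q e Y x.1 x.2.1 x.2.2 := by
  have hg : REPred fun z : List Bool × List Bool => z.2 ∈ U z.1 := by
    refine (Pool.Agent.W968.SSC.s1_graph hU.1.1).re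
  have h1 : ∀ x : ℕ × ℕ × ℕ, PP U code q e Y x.1 x.2.1 x.2.2 ↔
      ∃ z : List Bool × ℕ × ℕ × ℕ × ℕ × ℕ, (z.1.length < e * x.1 ∧
        code (vec z.2.1 z.2.2.1 z.2.2.2.1 z.2.2.2.2.1 z.2.2.2.2.2) ∈ U z.1) ∧
        ((z.2.1 * 2 ^ (q * x.1) ≤ z.2.2.1 * 2 ^ (q * x.1) + (x.2.1 + 2) * (z.2.2.2.2.2 + 1) ∧
          z.2.2.1 * 2 ^ (q * x.1) + x.2.1 * (z.2.2.2.2.2 + 1) ≤
            z.2.1 * 2 ^ (q * x.1) + 2 * (z.2.2.2.2.2 + 1)) ∧
        (z.2.2.2.1 * 2 ^ (q * x.1) + Y * 2 ^ (q * x.1) * (z.2.2.2.2.2 + 1) ≤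
            z.2.2.2.2.1 * 2 ^ (q * x.1) + (x.2.2 + 1) * (z.2.2.2.2.2 + 1) ∧
          z.2.2.2.2.1 * 2 ^ (q * x.1) + x.2.2 * (z.2.2.2.2.2 + 1) ≤
            z.2.2.2.1 * 2 ^ (q * x.1) + Y * 2 ^ (q * x.1) * (z.2.2.2.2.2 + 1) +
              (z.2.2.2.2.2 + 1))) := by
    rintro ⟨t, j, y⟩
    have key : ∀ a b c d k : ℕ, (|(vec a b c d k).1 * 2 ^ (q * t) - j| ≤ 2 ∧
        |((vec a b c d k).2 + Y) * 2 ^ (q * t) - y| ≤ 1) ↔
        (a * 2 ^ (q * t) ≤ b * 2 ^ (q * t) + (j + 2) * (k + 1) ∧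
          b * 2 ^ (q * t) + j * (k + 1) ≤ a * 2 ^ (q * t) + 2 * (k + 1)) ∧
        (c * 2 ^ (q * t) + Y * 2 ^ (q * t) * (k + 1) ≤ d * 2 ^ (q * t) + (y + 1) * (k + 1) ∧
          d * 2 ^ (q * t) + y * (k + 1) ≤ c * 2 ^ (q * t) + Y * 2 ^ (q * t) * (k + 1) +
            (k + 1)) := by
      intro a b c d k
      have hk : (0 : ℚ) < (k : ℚ) + 1 := by positivity
      rw [abs_le, abs_le]
      simp only [vec]
      have e1 : ((a : ℚ) - b) / (k + 1) * 2 ^ (q * t) - j =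
          ((a - b) * 2 ^ (q * t) - j * (k + 1)) / (k + 1) := by
        field_simp
      have e2 : (((c : ℚ) - d) / (k + 1) + Y) * 2 ^ (q * t) - y =
          ((c - d) * 2 ^ (q * t) + Y * 2 ^ (q * t) * (k + 1) - y * (k + 1)) / (k + 1) := by
        field_simp
      rw [e1, e2, div_le_iff₀ hk, le_div_iff₀ hk, div_le_iff₀ hk, le_div_iff₀ hk]
      rw [← Nat.cast_le (α := ℚ), ← Nat.cast_le (α := ℚ), ← Nat.cast_le (α := ℚ),
        ← Nat.cast_le (α := ℚ)]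
      push_cast
      constructor
      · rintro ⟨⟨h1, h2⟩, h3, h4⟩
        exact ⟨⟨by linarith, by linarith⟩, by linarith, by linarith⟩
      · rintro ⟨⟨h1, h2⟩, h3, h4⟩
        exact ⟨⟨by linarith, by linarith⟩, by linarith, by linarith⟩
    constructor
    · rintro ⟨x, hx1, hx2⟩
      obtain ⟨p, hp1, hp2⟩ := (K_lt hU).1 hx1
      obtain ⟨a, b, c, d, k, rfl⟩ : ∃ a b c d k, x = vec a b c d k := exists_vec x
      exact ⟨(p, a, b, c, d, k), ⟨hp1, hp2⟩, (key a b c d k).1 hx2⟩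
    · rintro ⟨⟨p, a, b, c, d, k⟩, ⟨hp1, hp2⟩, hx2⟩
      exact ⟨vec a b c d k, (K_lt hU).2 ⟨p, hp1, hp2⟩, (key a b c d k).2 hx2⟩
  have h2 : Computable fun n : ℕ => 2 ^ n :=
    (primrec_pow.comp (Primrec.const 2) Primrec.id).to_comp
  have h2' : ∀ {α : Type} [Primcodable α] {g : α → ℕ}, Computable g →
      Computable fun a => 2 ^ (g a) := fun hg => h2.comp hg
  have h3 : Computable fun z : ℕ × ℕ × ℕ × ℕ × ℕ => code (vec z.1 z.2.1 z.2.2.1 z.2.2.2.1 z.2.2.2.2) :=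
    hc.2
  refine REPred.of_eq (Pool.Agent.Helper446.RE.ex (p := fun (x : ℕ × ℕ × ℕ)
    (z : List Bool × ℕ × ℕ × ℕ × ℕ × ℕ) => _) ?_) fun x => (h1 x).symm
  refine Pool.Agent.Helper446.RE.and (Pool.Agent.Helper446.RE.and ?_ ?_)
    (Pool.Agent.Helper446.RE.and (Pool.Agent.Helper446.RE.and ?_ ?_)
      (Pool.Agent.Helper446.RE.and ?_ ?_))
  · exact Pool.Agent.Helper446.RE.lt (by fun_prop) (by fun_prop)
  · exact Pool.Agent.Helper446.RE.comp (f := fun x : (ℕ × ℕ × ℕ) × List Bool × ℕ × ℕ × ℕ × ℕ × ℕ =>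
      (x.2.1, code (vec x.2.2.1 x.2.2.2.1 x.2.2.2.2.1 x.2.2.2.2.2.1 x.2.2.2.2.2.2))) hg
      ((by fun_prop : Computable fun x : (ℕ × ℕ × ℕ) × List Bool × ℕ × ℕ × ℕ × ℕ × ℕ =>
        x.2.1).pair (h3.comp (g := fun x : (ℕ × ℕ × ℕ) × List Bool × ℕ × ℕ × ℕ × ℕ × ℕ => x.2.2)
          (by fun_prop)))
  all_goals
    have h4 : Computable fun x : (ℕ × ℕ × ℕ) × List Bool × ℕ × ℕ × ℕ × ℕ × ℕ =>
      2 ^ (q * x.1.1) := h2' (by fun_prop)
    exact Pool.Agent.Helper446.RE.le (by fun_prop) (by fun_prop)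

end Pool.Agent.X234.TD
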