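import Pool.Agent.X234.TD.Rem

/-!
The family of trigonometric polynomials.
-/

set_option autoImplicit false

namespace Pool.Agent.X234.TD

open Finset Polynomial
open Pool.Agent.Helper446.RE (cadd cmul cconst csub)

/-- the basis functions `1 + cos kx`, `1 + sin kx` -/
noncomputable def phi (m i : ℕ) (x : ℝ) : ℝ :=
  if i % 2 = 0 then 1 + Real.cos ((min (i / 2) m : ℕ) * x)
  else 1 + Real.sin ((min (i / 2) m : ℕ) * x)

/-- their values at zero -/
def cc (i : ℕ) : ℕ := if i % 2 = 0 then 2 else 1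

theorem phi_zero (m i : ℕ) : phi m i 0 = cc i := by
  unfold phi cc
  split_ifs <;> norm_num

theorem phi_le (m i : ℕ) (x : ℝ) : |phi m i x| ≤ 2 := by
  unfold phi
  rw [abs_le]
  split_ifs
  · constructor <;> linarith [Real.neg_one_le_cos ((min (i / 2) m : ℕ) * x),
      Real.cos_le_one ((min (i / 2) m : ℕ) * x)]
  · constructor <;> linarith [Real.neg_one_le_sin ((min (i / 2) m : ℕ) * x),
      Real.sin_le_one ((min (i / 2) m : ℕ) * x)]

theorem sum_pairs {R : Type} [AddCommMonoid R] (g : ℕ → R) (n : ℕ) :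
    ∑ i ∈ Finset.range (2 * n), g i = ∑ k ∈ Finset.range n, (g (2 * k) + g (2 * k + 1)) := by
  induction n with
  | zero => simp
  | succ n ih =>
    rw [show 2 * (n + 1) = 2 * n + 1 + 1 by ring, Finset.sum_range_succ, Finset.sum_range_succ, ih,
      Finset.sum_range_succ, add_assoc]

/-- the polynomial of a trigonometric polynomial -/
noncomputable def poly (m : ℕ) (v : ℕ → ℝ) : ℂ[X] :=
  ∑ k ∈ Finset.range (m + 1),
    (C (v (2 * k) : ℂ) * (X ^ m + C (1 / 2) * (X ^ (m + k) + X ^ (m - k))) +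
      C (v (2 * k + 1) : ℂ) * (X ^ m + C (1 / (2 * Complex.I)) * (X ^ (m + k) - X ^ (m - k))))

theorem poly_degree (m : ℕ) (v : ℕ → ℝ) :
    (poly m v).degree < ((2 * m + 1 : ℕ) : WithBot ℕ) := by
  rw [← Polynomial.mem_degreeLT]
  unfold poly
  have hX : ∀ j, j < 2 * m + 1 → (X : ℂ[X]) ^ j ∈ Polynomial.degreeLT ℂ (2 * m + 1) := by
    intro j hj
    rw [Polynomial.mem_degreeLT, Polynomial.degree_X_pow]
    exact_mod_cast hj
  have hC : ∀ (c : ℂ) (p : ℂ[X]), p ∈ Polynomial.degreeLT ℂ (2 * m + 1) →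
      C c * p ∈ Polynomial.degreeLT ℂ (2 * m + 1) := by
    intro c p hp
    rw [← Polynomial.smul_eq_C_mul]
    exact Submodule.smul_mem _ _ hp
  refine Submodule.sum_mem _ fun k hk => ?_
  rw [Finset.mem_range] at hk
  refine Submodule.add_mem _ (hC _ _ (Submodule.add_mem _ (hX _ (by omega)) (hC _ _
    (Submodule.add_mem _ (hX _ (by omega)) (hX _ (by omega))))))
    (hC _ _ (Submodule.add_mem _ (hX _ (by omega)) (hC _ _
    (Submodule.sub_mem _ (hX _ (by omega)) (hX _ (by omega))))))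

theorem poly_eval (m : ℕ) (v : ℕ → ℝ) (x : ℝ) :
    (poly m v).eval (Complex.exp (Complex.I * x)) = Complex.exp (Complex.I * x) ^ m *
      ((∑ i ∈ Finset.range (2 * (m + 1)), v i * phi m i x : ℝ) : ℂ) := by
  rw [sum_pairs]
  unfold poly
  rw [eval_finsetSum]
  push_cast
  rw [Finset.mul_sum]
  refine Finset.sum_congr rfl fun k hk => ?_
  rw [Finset.mem_range] at hk
  unfold phi
  rw [if_pos (by omega), if_neg (by omega), show 2 * k / 2 = k by omega,
    show (2 * k + 1) / 2 = k by omega, min_eq_left (by omega : k ≤ m)]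
  set e := Complex.exp (Complex.I * x) with he
  have he0 : e ≠ 0 := Complex.exp_ne_zero _
  have h1 : e ^ k = Complex.exp (((k : ℝ) * x : ℝ) * Complex.I) := by
    rw [he, ← Complex.exp_nat_mul]; congr 1; push_cast; ring
  have h2 : (e ^ k)⁻¹ = Complex.exp (-(((k : ℝ) * x : ℝ) * Complex.I)) := by
    rw [h1, Complex.exp_neg]
  have h3 : e ^ (m + k) = e ^ m * e ^ k := pow_add _ _ _
  have h4 : e ^ (m - k) = e ^ m * (e ^ k)⁻¹ := by
    rw [eq_mul_inv_iff_mul_eq₀ (pow_ne_zero _ he0), ← pow_add]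
    congr 1
    omega
  have h5 : ((Real.cos (k * x) : ℝ) : ℂ) = (e ^ k + (e ^ k)⁻¹) / 2 := by
    rw [h1, ← Complex.exp_neg, Complex.ofReal_cos, Complex.cos]
    congr 2
    rw [neg_mul]
  have h6 : ((Real.sin (k * x) : ℝ) : ℂ) = (e ^ k - (e ^ k)⁻¹) / (2 * Complex.I) := by
    rw [h1, ← Complex.exp_neg, Complex.ofReal_sin, Complex.sin, neg_mul]
    field_simp
    rw [Complex.I_sq]
    ring
  simp only [eval_add, eval_mul, eval_C, eval_pow, eval_X, eval_sub]
  rw [h3, h4]
  push_cast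
  rw [← Complex.ofReal_natCast, ← Complex.ofReal_mul, ← Complex.ofReal_cos, ← Complex.ofReal_sin,
    h5, h6]
  ring

theorem rem_trig (m : ℕ) (v : ℕ → ℝ) (N s : ℕ) (ε : ℝ) (J : Finset ℕ) (hJ : J ⊆ Finset.range N)
    (hs : 0 < s) (hcard : 2 * (m + 1) * s ≤ J.card)
    (h : ∀ j ∈ J, |∑ i ∈ Finset.range (2 * (m + 1)), v i * phi m i ((j : ℝ) / N)| ≤ ε) :
    |∑ i ∈ Finset.range (2 * (m + 1)), v i * cc i| * ((s : ℝ) / N) ^ (2 * m) ≤
      ((2 * m + 1) * 16 ^ m : ℕ) * ε := by
  obtain ⟨p, hp1, hp2⟩ := separated s hs (2 * (m + 1)) J hcard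
  have hN : 0 < N := by
    have := Finset.mem_range.1 (hJ (hp1 0 (by omega)))
    omega
  have hN0 : (0 : ℝ) < N := by exact_mod_cast hN
  have hs0 : (0 : ℝ) < s := by exact_mod_cast hs
  have h1 := lagrange (poly m v) (2 * m) (poly_degree m v)
    (fun i => Complex.exp (Complex.I * ((p i : ℝ) / N : ℝ)))
    (fun i => Complex.norm_exp_I_mul_ofReal _) (η := (s : ℝ) / N / 2) (ε := ε) (by positivity)
    (by
      have key : ∀ i j, i < j → j < 2 * m + 1 → (s : ℝ) / N / 2 ≤
          ‖Complex.exp (Complex.I * ((p i : ℝ) / N : ℝ)) -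
            Complex.exp (Complex.I * ((p j : ℝ) / N : ℝ))‖ := by
        intro i j hij hj
        have h2 := hp2 i j hij (by omega)
        have h3 := Finset.mem_range.1 (hJ (hp1 j (by omega)))
        have h4 : (p i : ℝ) + s ≤ p j := by exact_mod_cast h2
        have h5 : (p j : ℝ) < N := by exact_mod_cast h3
        have h6 : (p i : ℝ) / N - (p j : ℝ) / N = -(((p j : ℝ) - p i) / N) := by ring
        apply norm_exp_sub
        · rw [h6, abs_neg, abs_of_nonneg (div_nonneg (by linarith) hN0.le)]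
          exact div_le_div_of_nonneg_right (by linarith) hN0.le
        · rw [h6, abs_neg, abs_of_nonneg (div_nonneg (by linarith) hN0.le), div_le_one hN0]
          have : (0 : ℝ) ≤ p i := Nat.cast_nonneg _
          linarith
      intro i hi j hj hij
      rw [Finset.mem_range] at hi hj
      rcases lt_or_gt_of_ne hij with h2 | h2
      · exact key i j h2 hj
      · rw [norm_sub_rev]; exact key j i h2 hi) (by
      intro i hi
      rw [Finset.mem_range] at hi
      rw [poly_eval, norm_mul, norm_pow, Complex.norm_exp_I_mul_ofReal, one_pow, one_mul,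
        Complex.norm_real, Real.norm_eq_abs]
      exact h _ (hp1 i (by omega)))
  have h2 : (poly m v).eval 1 = ((∑ i ∈ Finset.range (2 * (m + 1)), v i * cc i : ℝ) : ℂ) := by
    have h3 := poly_eval m v 0
    rw [Complex.ofReal_zero, mul_zero, Complex.exp_zero, one_pow, one_mul] at h3
    rw [h3]
    simp only [phi_zero]
  rw [h2, Complex.norm_real, Real.norm_eq_abs, div_pow] at h1
  push_cast at h1 ⊢
  have h3 : (16 : ℝ) ^ m = 2 ^ (2 * m) * 2 ^ (2 * m) := by
    rw [← pow_add, show 2 * m + 2 * m = 4 * m by ring, pow_mul]; norm_num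
  have h4 : (0 : ℝ) < 2 ^ (2 * m) := by positivity
  rw [h3]
  rw [mul_div_assoc', div_le_iff₀ h4] at h1
  calc _ ≤ _ := h1
    _ = _ := by ring

end Pool.Agent.X234.TD
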