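import Pool.Agent.X234.TD.Bound

/-!
The graph has points of two dimensions.
-/

set_option autoImplicit false

namespace Pool.Agent.X234.TD

open scoped ENNReal
open Filter MeasureTheory Pool.Agent.Helper227 Finset
open Pool.Agent.Helper446.RE (cadd cmul cconst)

variable {U : List Bool →. List Bool} {code : ℚ × ℚ → List Bool}

theorem dim_zero_le (hU : IsUniversal U) (hc : IsCoding code) (y : ℝ) {q : ℕ} (hq : 0 < q) :
    dim U code (0, y) ≤ ((q + 1 : ℕ) : ℝ≥0∞) / q := by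
  classical
  obtain ⟨Y, hY⟩ := exists_nat_ge |y|
  have hY2 := abs_le.1 hY
  obtain ⟨c, hc2⟩ := kc_levels hU (fun t w => ∃ l < (2 * Y + 1) * 2 ^ (q * t),
    code (vec 0 0 l (Y * 2 ^ (q * t)) (2 ^ (q * t) - 1)) = w) (by
      refine Pool.Agent.Helper446.RE.of_comput ?_
      refine Pool.Agent.Helper750.DC.cp_ex_lt (p := fun (x : ℕ × List Bool) l =>
        code (vec 0 0 l (Y * 2 ^ (q * x.1)) (2 ^ (q * x.1) - 1)) = x.2) ?_ ?_
      · refine Pool.Agent.Helper446.RE.cp_eq ?_ (by fun_prop)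
        have h1 : Computable fun x : (ℕ × List Bool) × ℕ => 2 ^ (q * x.1.1) :=
          comp_pow (by fun_prop)
        exact hc.2.comp (g := fun x : (ℕ × List Bool) × ℕ =>
          (0, 0, x.2, Y * 2 ^ (q * x.1.1), 2 ^ (q * x.1.1) - 1)) (by fun_prop)
      · have h1 : Computable fun x : ℕ × List Bool => 2 ^ (q * x.1) := comp_pow (by fun_prop)
        fun_prop) (2 * Y + 1) q (by
      intro t T hT
      choose! l hl hl2 using hT
      have h1 : T ⊆ (Finset.range ((2 * Y + 1) * 2 ^ (q * t))).image fun l =>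
          code (vec 0 0 l (Y * 2 ^ (q * t)) (2 ^ (q * t) - 1)) := by
        intro w hw
        exact Finset.mem_image.2 ⟨l w, Finset.mem_range.2 (hl w hw), hl2 w hw⟩
      refine (Finset.card_le_card h1).trans (Finset.card_image_le.trans ?_)
      rw [Finset.card_range])
  refine dim_le hq (c := c) (Frequently.of_forall fun t => ?_)
  set n := q * t with hn
  have hp : (0 : ℝ) < 2 ^ n := by positivity
  have h0 : 0 ≤ (y + Y) * 2 ^ n := mul_nonneg (by linarith) hp.le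
  have h1 := Nat.floor_le h0
  have h2 := Nat.lt_floor_add_one ((y + Y) * 2 ^ n)
  set l := ⌊(y + Y) * 2 ^ n⌋₊ with hl
  have hlt : l < (2 * Y + 1) * 2 ^ n := by
    rw [hl, Nat.floor_lt h0]
    push_cast
    nlinarith
  have h3 := hc2 t (code (vec 0 0 l (Y * 2 ^ n) (2 ^ n - 1))) ⟨l, hlt, rfl⟩
  refine le_trans (Kr_le ?_) h3
  have h4 : ((2 ^ n - 1 : ℕ) : ℝ) + 1 = 2 ^ n := by
    have h5 : 1 ≤ 2 ^ n := Nat.one_le_two_pow
    rw [Nat.cast_sub h5]
    push_cast
    ring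
  have h5 : (((vec 0 0 l (Y * 2 ^ n) (2 ^ n - 1)).1 : ℚ) : ℝ) = 0 := by simp [vec]
  have h6 : (((vec 0 0 l (Y * 2 ^ n) (2 ^ n - 1)).2 : ℚ) : ℝ) = l / 2 ^ n - Y := by
    unfold vec
    simp only
    push_cast
    rw [h4]
    field_simp
  rw [h5, h6]
  simp only [sub_zero]
  rw [zero_pow two_ne_zero, zero_add, Real.sqrt_sq_eq_abs, abs_lt]
  have h7 : (1 / 2 : ℝ) ^ n = 1 / 2 ^ n := by rw [one_div_pow]
  rw [h7]
  have h8 : (l : ℝ) / 2 ^ n ≤ y + Y := by rw [div_le_iff₀ hp]; exact h1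
  have h9 : y + Y < (l : ℝ) / 2 ^ n + 1 / 2 ^ n := by
    rw [← add_div, lt_div_iff₀ hp]; exact h2
  have h10 : (0 : ℝ) < 1 / 2 ^ n := by positivity
  constructor <;> linarith

theorem two_dims (hU : IsUniversal U) (hc : IsCoding code) {D : ℕ} {φ : ℕ → ℝ → ℝ}
    {A : ℕ → ℕ × ℕ → ℕ} {c0 : ℕ → ℕ} {E C κ : ℕ} (hF : Fam D φ A c0 E C κ) {M Y : ℕ}
    (f : ℝ → ℝ) (v : ℕ → ℝ) (hv : ∀ i < D, |v i| ≤ M)
    (hf : ∀ x, f x + Y = ∑ i ∈ Finset.range D, v i * φ i x) (hY : ∀ x, -(Y : ℝ) + 1 ≤ f x)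
    (Lf : ℕ) (hL : ∀ x y, |f x - f y| ≤ Lf * |x - y|) :
    ∃ x, dim U code (x, f x) ≠ dim U code (0, f 0) := by
  classical
  by_contra hcon
  push Not at hcon
  set s := dim U code (0, f 0) with hs
  -- the upper bounds
  have h1 : ∀ q : ℕ, s ≤ ((4 * κ + 2 + 1 : ℕ) : ℝ≥0∞) / ((q + 4 : ℕ) : ℝ≥0∞) := by
    intro q
    obtain ⟨c, hc2⟩ := kc_levels hU _ (SS_re hU hc hF.comp c0 M (D + 1) Y
      (Lf + 2 + D * (2 + E) + D * M * E) (q + 4) (q + 5) (D + 10)) _ _
      (fun t W hW => SS_card hU hc hF t W hW)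
    refine dim_le (by omega) (c := c) ?_
    rw [Filter.frequently_atTop]
    intro T
    by_contra hno
    push Not at hno
    obtain ⟨x, -, -, hx⟩ := select (U := U) (code := code) f (q + 4) (q + 5) (T + D + 10) (by
      intro t ht
      by_contra hlt
      push Not at hlt
      obtain ⟨w, hw1, hw2⟩ := SS_mem hF f v hv hf hY Lf hL (t := t) (by omega) hlt.le
      have h2 := hc2 t w hw1
      have h3 := hno t (by omega)
      have h4 := hw2.trans h2
      omega)
    have h2 := le_dim (q := q + 4) (e := q + 5) (by omega) hx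
    rw [hcon x] at h2
    -- choose a large parameter
    have h3 := dim_zero_le hU hc (f 0) (q := q + 5) (by omega)
    rw [← hs] at h3
    have h4 := h2.trans h3
    rw [ENNReal.div_le_iff_le_mul (Or.inl (by simp)) (Or.inl (ENNReal.natCast_ne_top _)),
      mul_comm, ← mul_div_assoc, ENNReal.le_div_iff_mul_le (Or.inl (by simp))
      (Or.inl (ENNReal.natCast_ne_top _))] at h4
    have h5 : (q + 5) * (q + 5) ≤ (q + 4) * (q + 5 + 1) := by exact_mod_cast h4
    nlinarith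
  obtain ⟨x, -, -, hx⟩ := select (U := U) (code := code) f 5 3 4 (by
    intro t ht
    have h2 := JJ_PP (U := U) (code := code) (q := 5) (e := 3) (t := t) f hY Lf hL
    choose! y hy1 hy2 using h2
    have h3 := card_PP hU hc 5 3 Y t ((JJ U code f 5 3 t).image fun j => (j, y j)) (by
      intro x hx
      obtain ⟨j, hj, rfl⟩ := Finset.mem_image.1 hx
      exact hy1 j hj)
    rw [Finset.card_image_of_injective _ (by
      intro a b hab
      exact (Prod.mk.inj hab).1)] at h3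
    have h4 : 15 ≤ 2 ^ t := by
      calc 15 ≤ 2 ^ 4 := by norm_num
        _ ≤ 2 ^ t := Nat.pow_le_pow_right (by norm_num) ht
    calc (JJ U code f 5 3 t).card * 2 ^ t ≤ 15 * 2 ^ (3 * t) * 2 ^ t :=
          Nat.mul_le_mul_right _ h3
      _ ≤ 2 ^ t * 2 ^ (3 * t) * 2 ^ t := by gcongr
      _ = 2 ^ (5 * t) := by rw [← pow_add, ← pow_add]; congr 1; ring)
  have h2 := le_dim (q := 5) (e := 3) (by omega) hx
  rw [hcon x] at h2
  have h3 := h2.trans (h1 (2 * (4 * κ + 2 + 1)))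
  rw [ENNReal.div_le_iff_le_mul (Or.inl (by simp)) (Or.inl (ENNReal.natCast_ne_top _)),
      mul_comm, ← mul_div_assoc, ENNReal.le_div_iff_mul_le (Or.inl (by simp))
      (Or.inl (ENNReal.natCast_ne_top _))] at h3
  have h5 : 3 * (2 * (4 * κ + 2 + 1) + 4) ≤ 5 * (4 * κ + 2 + 1) := by exact_mod_cast h3
  omega

end Pool.Agent.X234.TD
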